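import Pool.Agent.MP_e620c0_nt.t8.Spec

/-! A divisor bound and the sizes of the sieve polynomial. -/

set_option autoImplicit false

namespace Pool.Agent.Emirp.T8

open Finset Filter Real LP

namespace Div

theorem ev (E J : ℕ) : ∀ᶠ l : ℕ in atTop, (4 * (l : ℝ)) ^ E * 10 ^ J ≤ 10 ^ l := by
  have hc : (0 : ℝ) < 4 ^ E * 10 ^ J := by positivity
  filter_upwards [(tendsto_pow_const_div_const_pow_of_one_lt E
    (show (1 : ℝ) < 10 by norm_num)).eventually (gt_mem_nhds (inv_pos.2 hc))] with l h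
  rw [div_lt_iff₀ (by positivity), inv_mul_eq_div, lt_div_iff₀ hc] at h
  rw [mul_pow]
  calc (4 : ℝ) ^ E * (l : ℝ) ^ E * 10 ^ J = (l : ℝ) ^ E * (4 ^ E * 10 ^ J) := by ring
    _ ≤ _ := h.le

theorem aux (E J : ℕ) (hJ : J = 10000)
    (h : ∀ N : ℕ, ∑ n ∈ Icc 1 N, tau n ^ (5 * J) ≤ N * (1 + log N) ^ E) : DivStmt := by
  filter_upwards [ev E J, eventually_ge_atTop 1] with l h1 hl m hm
  rcases Nat.eq_zero_or_pos m with rfl | m0
  · rw [tau_zero, zero_pow (by norm_num)]
    positivity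
  have a1 : tau m ^ (5 * J) ≤ ∑ n ∈ Icc 1 (10 ^ l), tau n ^ (5 * J) :=
    single_le_sum (f := fun n => tau n ^ (5 * J)) (fun n _ => pow_nonneg (tau_nonneg n) _)
      (mem_Icc.2 ⟨m0, hm⟩)
  have l1 : (1 : ℝ) ≤ l := by exact_mod_cast hl
  have a2 : 1 + log ((10 ^ l : ℕ) : ℝ) ≤ 4 * (l : ℝ) := by
    rw [Nat.cast_pow, log_pow, Nat.cast_ofNat]
    nlinarith [Good.log_ten_le]
  have a3 : (1 + log ((10 ^ l : ℕ) : ℝ)) ^ E ≤ (4 * (l : ℝ)) ^ E :=
    pow_le_pow_left₀ (add_nonneg zero_le_one (log_natCast_nonneg _)) a2 E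
  have a4 : tau m ^ (5 * J) ≤ 10 ^ l * (4 * (l : ℝ)) ^ E := by
    refine a1.trans ((h _).trans ?_)
    refine (mul_le_mul_of_nonneg_left a3 (Nat.cast_nonneg _)).trans_eq ?_
    rw [Nat.cast_pow, Nat.cast_ofNat]
  have a5 : l + l ≤ l / 5000 * J + J := by
    subst hJ
    omega
  have a6 : tau m ^ (5 * J) * 10 ^ J ≤ 10 ^ (l / 5000 * J) * 10 ^ J :=
    calc tau m ^ (5 * J) * 10 ^ J ≤ 10 ^ l * (4 * (l : ℝ)) ^ E * 10 ^ J :=
          mul_le_mul_of_nonneg_right a4 (by positivity)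
      _ ≤ 10 ^ l * 10 ^ l := by
          rw [mul_assoc]
          exact mul_le_mul_of_nonneg_left h1 (by positivity)
      _ ≤ _ := by
          rw [← pow_add, ← pow_add]
          exact pow_le_pow_right₀ (by norm_num) a5
  have a7 := le_of_mul_le_mul_right a6 (by positivity)
  rw [pow_mul, pow_mul] at a7
  exact (pow_le_pow_iff_left₀ (pow_nonneg (tau_nonneg m) _) (by positivity) (by omega)).1 a7

theorem gg (ξ : ℕ) : GG ξ ≤ (1 + log ξ) ^ 2 := by
  have a := tau_div 1 ξ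
  rw [pow_one 2] at a
  refine le_trans ?_ a
  unfold GG
  refine (sum_le_sum fun r hr => ?_).trans (sum_le_sum_of_subset_of_nonneg (filter_subset _ _)
    fun r _ _ => div_nonneg (pow_nonneg (tau_nonneg r) _) (Nat.cast_nonneg _))
  have r0 : 0 < r := Nat.pos_of_ne_zero (Sel.DD_ne hr)
  have r1 : (0 : ℝ) < r := by exact_mod_cast r0
  have r2 : (0 : ℝ) < r.totient := by exact_mod_cast Nat.totient_pos.2 r0
  rw [div_le_div_iff₀ r2 r1, one_mul, pow_one]
  exact Sel.le_tau_tot r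

end Div

theorem div : DivStmt := Div.aux _ 10000 rfl (tau_sum _)

theorem pol : PolStmt := by
  intro l hl
  have a1 : 1 ≤ al l := by
    unfold al
    omega
  have a2 : al l ≤ be l := by
    unfold al be
    omega
  have x2 : 2 ≤ xi l := le_trans (by norm_num) (Nat.pow_le_pow_right (by norm_num : 0 < 10) a1)
  have xy : xi l ≤ YY l := Nat.pow_le_pow_right (by norm_num) a2
  have l0 : (24 : ℝ) ≤ l := by exact_mod_cast hl
  have a3 : (10000 : ℝ) * al l ≤ 421 * l := by
    have : 10000 * al l ≤ 421 * l := by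
      unfold al
      omega
    exact_mod_cast this
  have a4 : log (xi l) ≤ l / 10 := by
    unfold xi
    rw [Nat.cast_pow, log_pow, Nat.cast_ofNat]
    have := mul_le_mul_of_nonneg_left Good.log_ten_le (Nat.cast_nonneg (α := ℝ) (al l))
    linarith
  have g0 := Sel.GG_nn (xi l)
  have g1 : GG (xi l) ≤ (1 + (l : ℝ) / 10) ^ 2 :=
    (Div.gg _).trans (pow_le_pow_left₀ (add_nonneg zero_le_one (log_natCast_nonneg _))
      (by linarith) 2)
  have g2 : 2 * GG (xi l) ≤ (l : ℝ) ^ 2 := by nlinarith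
  have b0 : 0 ≤ BB l := mul_nonneg (by norm_num) g0
  refine ⟨x2, xy, b0, by unfold BB; linarith, sum_nonneg fun r _ => by positivity, ?_,
    fun n hn => ?_, fun z q hq => ?_⟩
  · refine le_trans ?_ g2
    unfold AA GG
    rw [mul_sum]
    refine sum_le_sum fun r _ => ?_
    rw [mul_one_div]
    refine div_le_div_of_nonneg_right ?_ (Nat.cast_nonneg _)
    have := abs_le.1 (SieveAux.yy_le x2 r)
    nlinarith
  · unfold Pw Sel.PP
    rw [← sum_filter]
    refine (abs_sum_le_sum_abs _ _).trans ?_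
    refine (sum_le_card_nsmul _ _ (tau n * BB l) fun d hd => ?_).trans ?_
    · obtain ⟨d1, d2⟩ := mem_filter.1 hd
      exact (Sel.abs_la _ _ (SieveAux.yy_le x2) d1).trans
        (mul_le_mul_of_nonneg_right (tau_dvd d2 hn) b0)
    · have c : (((DD (xi l)).filter (fun d => d ∣ n)).card : ℝ) ≤ tau n := by
        unfold tau
        exact_mod_cast card_le_card fun d hd => Nat.mem_divisors.2 ⟨(mem_filter.1 hd).2, hn⟩
      rw [nsmul_eq_mul, sq, mul_assoc]
      exact mul_le_mul_of_nonneg_right c (mul_nonneg (tau_nonneg n) b0)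
  · obtain ⟨q1, q2⟩ := (Sel.mem_DD.1 (mem_filter.1 hq).1).1
    have y2 : (1 : ℝ) < YY l := by exact_mod_cast (show 1 < YY l by omega)
    have y3 := log_pos y2
    have q3 : log q ≤ log (YY l) :=
      log_le_log (by exact_mod_cast q1) (by exact_mod_cast q2)
    have q4 : log q / log (YY l) ≤ 1 := (div_le_one y3).2 q3
    have q5 : 0 ≤ log q / log (YY l) := div_nonneg (log_natCast_nonneg _) y3.le
    unfold gw
    split_ifs <;> constructor <;> linarith

end Pool.Agent.Emirp.T8
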