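import Pool.Agent.MP_e620c0_nt.t8.Spec

/-! The error sum of the sieve and the weight for the integers coprime to 330. -/

set_option autoImplicit false

namespace Pool.Agent.Emirp.T8

open Finset Filter Real LP

namespace Err

theorem phi : ∑ e ∈ Nat.divisors 330, Sel.mo e / (e : ℝ) = 8 / 33 := by
  have m1 := Sel.mo_one
  have m2 : Sel.mo 2 = -1 := Sel.mo_prime (by norm_num)
  have m3 : Sel.mo 3 = -1 := Sel.mo_prime (by norm_num)
  have m5 : Sel.mo 5 = -1 := Sel.mo_prime (by norm_num)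
  have m11 : Sel.mo 11 = -1 := Sel.mo_prime (by norm_num)
  have m6 : Sel.mo 6 = Sel.mo 2 * Sel.mo 3 := Sel.mo_mul (a := 2) (b := 3) (by norm_num)
  have m10 : Sel.mo 10 = Sel.mo 2 * Sel.mo 5 := Sel.mo_mul (a := 2) (b := 5) (by norm_num)
  have m15 : Sel.mo 15 = Sel.mo 3 * Sel.mo 5 := Sel.mo_mul (a := 3) (b := 5) (by norm_num)
  have m22 : Sel.mo 22 = Sel.mo 2 * Sel.mo 11 := Sel.mo_mul (a := 2) (b := 11) (by norm_num)
  have m33 : Sel.mo 33 = Sel.mo 3 * Sel.mo 11 := Sel.mo_mul (a := 3) (b := 11) (by norm_num)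
  have m55 : Sel.mo 55 = Sel.mo 5 * Sel.mo 11 := Sel.mo_mul (a := 5) (b := 11) (by norm_num)
  have m30 : Sel.mo 30 = Sel.mo 2 * Sel.mo 15 := Sel.mo_mul (a := 2) (b := 15) (by norm_num)
  have m66 : Sel.mo 66 = Sel.mo 2 * Sel.mo 33 := Sel.mo_mul (a := 2) (b := 33) (by norm_num)
  have m110 : Sel.mo 110 = Sel.mo 2 * Sel.mo 55 := Sel.mo_mul (a := 2) (b := 55) (by norm_num)
  have m165 : Sel.mo 165 = Sel.mo 3 * Sel.mo 55 := Sel.mo_mul (a := 3) (b := 55) (by norm_num)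
  have m330 : Sel.mo 330 = Sel.mo 2 * Sel.mo 165 := Sel.mo_mul (a := 2) (b := 165) (by norm_num)
  have hd : Nat.divisors 330 = {1, 2, 3, 5, 6, 10, 11, 15, 22, 30, 33, 55, 66, 110, 165, 330} := by
    simp only [Nat.divisors_ofNat]
  rw [hd]
  repeat rw [sum_insert (by norm_num)]
  rw [sum_singleton, m330, m165, m110, m66, m30, m55, m33, m22, m15, m10, m6, m11, m5, m3, m2, m1]
  norm_num

theorem ten {n : ℕ} : Nat.Coprime n 10 ↔ n % 10 ∈ MAIN.DG := by
  have h : Nat.gcd n 10 = Nat.gcd (n % 10) 10 := (Nat.mod_modEq n 10).symm.gcd_eq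
  have h2 : n % 10 < 10 := Nat.mod_lt _ (by norm_num)
  rw [Nat.Coprime, h]
  generalize n % 10 = r at *
  interval_cases r <;> simp [MAIN.DG]

theorem fwd {l k : ℕ} (hl : 1 ≤ l) (hk : k < 10 ^ l)
    (h : k / 10 ^ (l - 1) ∈ MAIN.DG ∧ Nat.Coprime k 330) :
    rv l k / 10 ^ (l - 1) ∈ MAIN.DG ∧ Nat.Coprime (rv l k) 330 := by
  obtain ⟨h1, h2⟩ := h
  have c10 : Nat.Coprime k 10 := h2.coprime_dvd_right (by norm_num)
  have c33 : Nat.Coprime k 33 := h2.coprime_dvd_right (by norm_num)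
  constructor
  · rw [← MAIN.dg_top hl (rv_lt l k), dg_rv (by omega), Nat.sub_self]
    simpa [dg] using ten.1 c10
  · have a : dg 0 (rv l k) ∈ MAIN.DG := by
      rwa [dg_rv (by omega), Nat.sub_zero, MAIN.dg_top hl hk]
    have b : Nat.Coprime (rv l k) 10 := ten.2 (by simpa [dg] using a)
    have c : Nat.Coprime (rv l k) 33 := by
      have e : rv l k ≡ 10 ^ (l - 1) * k [MOD 33] := (MAIN.rv_mod hk).of_dvd (by norm_num)
      rw [Nat.Coprime, e.gcd_eq]
      exact Nat.Coprime.mul_left (Nat.Coprime.pow_left _ (by norm_num)) c33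
    exact Nat.Coprime.mul_right b c

end Err

open Sel in
theorem err : ErrStmt := by
  intro ξ b y Y Q δ hY hQ hδ
  have hY0 : 0 ≤ Y := (abs_nonneg _).trans (hY 0)
  have hE : 0 ≤ Y * GG ξ := mul_nonneg hY0 (GG_nn ξ)
  set T := Q ×ˢ (DD ξ ×ˢ DD ξ) with hT
  have hdv : ∀ q d₁ d₂, q ∣ LL q d₁ d₂ ∧ d₁ ∣ LL q d₁ d₂ ∧ d₂ ∣ LL q d₁ d₂ := fun q d₁ d₂ =>
    ⟨Nat.dvd_lcm_left _ _, (Nat.dvd_lcm_left _ _).trans (Nat.dvd_lcm_right _ _),
      (Nat.dvd_lcm_right _ _).trans (Nat.dvd_lcm_right _ _)⟩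
  have hmap : ∀ t ∈ T, LL t.1 t.2.1 t.2.2 ∈ Level.QQ (b * ξ ^ 2) := by
    intro t ht
    obtain ⟨h0, h12⟩ := mem_product.1 ht
    obtain ⟨h1, h2⟩ := mem_product.1 h12
    obtain ⟨h0, hb, hc⟩ := Level.mem_QQ (hQ h0)
    have hd : LL t.1 t.2.1 t.2.2 ∣ t.1 * (t.2.1 * t.2.2) :=
      (Nat.lcm_dvd_mul _ _).trans (Nat.mul_dvd_mul_left _ (Nat.lcm_dvd_mul _ _))
    have hp : 0 < t.1 * (t.2.1 * t.2.2) := Nat.pos_of_ne_zero
      (mul_ne_zero h0.ne' (mul_ne_zero (DD_ne h1) (DD_ne h2)))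
    refine mem_filter.2 ⟨mem_Icc.2 ⟨Nat.pos_of_dvd_of_pos hd hp, (Nat.le_of_dvd hp hd).trans ?_⟩,
      Nat.Coprime.coprime_dvd_left hd ?_⟩
    · rw [sq]
      exact Nat.mul_le_mul hb (Nat.mul_le_mul (mem_DD.1 h1).1.2 (mem_DD.1 h2).1.2)
    · exact Nat.Coprime.mul_left hc
        (Nat.Coprime.mul_left (mem_DD.1 h1).2.2 (mem_DD.1 h2).2.2)
  calc ∑ q ∈ Q, ∑ d₁ ∈ DD ξ, ∑ d₂ ∈ DD ξ, |la ξ y d₁ * la ξ y d₂| * δ (LL q d₁ d₂)
      = ∑ t ∈ T, |la ξ y t.2.1 * la ξ y t.2.2| * δ (LL t.1 t.2.1 t.2.2) := by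
        rw [hT, sum_product]
        refine sum_congr rfl fun q _ => ?_
        rw [sum_product]
    _ = ∑ l ∈ Level.QQ (b * ξ ^ 2), ∑ t ∈ T.filter (fun t => LL t.1 t.2.1 t.2.2 = l),
            |la ξ y t.2.1 * la ξ y t.2.2| * δ (LL t.1 t.2.1 t.2.2) :=
        (sum_fiberwise_of_maps_to hmap _).symm
    _ ≤ (Y * GG ξ) ^ 2 * ∑ m ∈ Level.QQ (b * ξ ^ 2), tau m ^ 5 * δ m := by
        rw [mul_sum]
        refine sum_le_sum fun l hl => ?_
        have l0 : l ≠ 0 := (Level.mem_QQ hl).1.ne'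
        have hc : ((T.filter (fun t => LL t.1 t.2.1 t.2.2 = l)).card : ℝ) ≤ tau l ^ 3 := by
          have : T.filter (fun t => LL t.1 t.2.1 t.2.2 = l) ⊆
              l.divisors ×ˢ (l.divisors ×ˢ l.divisors) := by
            intro t ht
            have h := hdv t.1 t.2.1 t.2.2
            rw [(mem_filter.1 ht).2] at h
            simp only [mem_product, Nat.mem_divisors]
            exact ⟨⟨h.1, l0⟩, ⟨h.2.1, l0⟩, h.2.2, l0⟩
          have h2 := card_le_card this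
          rw [card_product, card_product] at h2
          have h3 : ((T.filter (fun t => LL t.1 t.2.1 t.2.2 = l)).card : ℝ) ≤
              (l.divisors.card : ℝ) * ((l.divisors.card : ℝ) * l.divisors.card) := by
            exact_mod_cast h2
          unfold tau
          linarith
        have hl0 := hδ l
        have hb : ∀ t ∈ T.filter (fun t => LL t.1 t.2.1 t.2.2 = l),
            |la ξ y t.2.1 * la ξ y t.2.2| * δ (LL t.1 t.2.1 t.2.2) ≤
              (tau l * (Y * GG ξ)) * (tau l * (Y * GG ξ)) * δ l := by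
          intro t ht
          have h := hdv t.1 t.2.1 t.2.2
          obtain ⟨ht, hl'⟩ := mem_filter.1 ht
          rw [hl'] at h ⊢
          obtain ⟨h1, h2⟩ := mem_product.1 (mem_product.1 ht).2
          have e1 := (abs_la y Y hY h1).trans
            (mul_le_mul_of_nonneg_right (tau_mono h.2.1 l0) hE)
          have e2 := (abs_la y Y hY h2).trans
            (mul_le_mul_of_nonneg_right (tau_mono h.2.2 l0) hE)
          have := tau_nn l
          rw [abs_mul]
          gcongr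
        refine (sum_le_card_nsmul _ _ _ hb).trans ?_
        rw [nsmul_eq_mul]
        have := tau_nn l
        calc _ ≤ tau l ^ 3 * ((tau l * (Y * GG ξ)) * (tau l * (Y * GG ξ)) * δ l) := by
              gcongr
          _ = _ := by ring

theorem mob : MobStmt := by
  refine ⟨fun l m k hm => ?_, Err.phi, fun l k hl hk => ?_⟩
  · by_cases hd : k / 10 ^ (l - 1) ∈ MAIN.DG
    · by_cases hk : m ∣ k
      · have h1 : ∀ e ∈ Nat.divisors 330, Sel.mo e * wm l (e * m) k =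
            if e ∣ k then Sel.mo e else 0 := by
          intro e he
          have c : Nat.Coprime e m :=
            (hm.coprime_dvd_right (Nat.dvd_of_mem_divisors he)).symm
          by_cases h : e ∣ k
          · rw [wm, if_pos ⟨hd, c.mul_dvd_of_dvd_of_dvd h hk⟩, if_pos h, mul_one]
          · rw [wm, if_neg fun g => h ((Dvd.intro _ rfl).trans g.2), if_neg h, mul_zero]
        have h2 : (Nat.divisors 330).filter (fun e => e ∣ k) = (Nat.gcd k 330).divisors := by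
          ext e
          simp only [mem_filter, Nat.mem_divisors, Nat.dvd_gcd_iff]
          exact ⟨fun h => ⟨⟨h.2, h.1.1⟩, Nat.gcd_ne_zero_right (by norm_num)⟩,
            fun h => ⟨⟨h.1.2, by norm_num⟩, h.1.1⟩⟩
        rw [sum_congr rfl h1, ← sum_filter, h2, Sel.sum_mo, if_pos hk, mul_one, w0]
        exact if_congr (and_iff_right hd) rfl rfl
      · rw [if_neg hk, mul_zero]
        refine (sum_eq_zero fun e _ => ?_).symm
        rw [wm, if_neg fun g => hk ((Dvd.intro_left _ rfl).trans g.2), mul_zero]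
    · rw [w0, if_neg fun g => hd g.1, zero_mul]
      refine (sum_eq_zero fun e _ => ?_).symm
      rw [wm, if_neg fun g => hd g.1, mul_zero]
  · unfold w0
    refine if_congr ⟨fun h => ?_, Err.fwd hl hk⟩ rfl rfl
    have := Err.fwd hl (rv_lt l k) h
    rwa [rv_rv hk] at this

end Pool.Agent.Emirp.T8
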