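import Pool.Agent.MP_e620c0_nt.t8.Spec

/-! The weight of the exceptional set. -/

set_option autoImplicit false

namespace Pool.Agent.Emirp.T8

open Finset Filter Real LP

namespace Exc

theorem tsum : ∃ E : ℕ, ∀ l : ℕ, 4 ≤ l →
    ∑ k ∈ range (10 ^ l), tau k ^ 16 ≤ 10 ^ l * (l : ℝ) ^ E := by
  obtain ⟨E, hE⟩ : ∃ E : ℕ, ∀ N : ℕ, ∑ n ∈ Icc 1 N, tau n ^ 16 ≤ N * (1 + log N) ^ E :=
    ⟨_, tau_sum 16⟩
  refine ⟨2 * E, fun l hl => ?_⟩
  have hl' : (4 : ℝ) ≤ l := by exact_mod_cast hl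
  have h1 := hE (10 ^ l)
  have h2 := Core2.log_ten_pow l
  have h3 : 0 ≤ log ((10 : ℝ) ^ l) := log_nonneg (one_le_pow₀ (by norm_num))
  push_cast at h1
  have h4 : ∑ k ∈ range (10 ^ l), tau k ^ 16 ≤ ∑ k ∈ insert 0 (Icc 1 (10 ^ l)), tau k ^ 16 :=
    sum_le_sum_of_subset_of_nonneg (fun m hm => by
      have := mem_range.1 hm
      simp only [mem_insert, mem_Icc]
      omega) fun m _ _ => pow_nonneg (tau_nonneg m) _
  rw [sum_insert (by simp), tau_zero, zero_pow (by norm_num), zero_add] at h4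
  refine h4.trans (h1.trans (mul_le_mul_of_nonneg_left ?_ (by positivity)))
  rw [pow_mul]
  exact pow_le_pow_left₀ (by linarith) (by nlinarith) E

/-- majorant of the indicator of the exceptional set -/
noncomputable def bd (l z k : ℕ) : ℝ :=
  (∑ q ∈ Ioc z (10 ^ l), if k ≠ 0 ∧ q ^ 2 ∣ k then (1 : ℝ) else 0) + if rv l k = k then 1 else 0

theorem ex_nonneg (l z k : ℕ) :
    0 ≤ ∑ q ∈ Ioc z (10 ^ l), if k ≠ 0 ∧ q ^ 2 ∣ k then (1 : ℝ) else 0 :=
  sum_nonneg fun _ _ => by split_ifs <;> norm_num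

theorem bd_nonneg (l z k : ℕ) : 0 ≤ bd l z k :=
  add_nonneg (ex_nonneg l z k) (by split_ifs <;> norm_num)

theorem one_le_bd {l z k : ℕ} (h0 : k ≠ 0) (hk : k < 10 ^ l)
    (h : (∃ b : ℕ, z < b ∧ b ^ 2 ∣ k) ∨ rv l k = k) : 1 ≤ bd l z k := by
  have e := ex_nonneg l z k
  unfold bd
  rcases h with ⟨b, hb, hd⟩ | h
  · have h1 : b ≤ k := Nat.le_of_dvd (by omega) ((dvd_pow_self b two_ne_zero).trans hd)
    have h2 := single_le_sum (f := fun q => if k ≠ 0 ∧ q ^ 2 ∣ k then (1 : ℝ) else 0)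
      (fun q _ => by split_ifs <;> norm_num) (mem_Ioc.2 ⟨hb, h1.trans hk.le⟩)
    rw [if_pos ⟨h0, hd⟩] at h2
    split_ifs <;> linarith
  · rw [if_pos h]
    linarith

theorem amgm (a b T : ℝ) (hT : 0 < T) : a * b ≤ (a ^ 4 + b ^ 4) / (4 * T) + T / 2 := by
  rw [← sub_le_iff_le_add, le_div_iff₀ (by positivity)]
  nlinarith [sq_nonneg (a ^ 2 - b ^ 2), sq_nonneg (a * b - T)]

theorem ne_zero {l k : ℕ} (h : w0 l k ≠ 0) : k ≠ 0 ∧ w0 l k = 1 := by
  unfold w0 at h ⊢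
  split_ifs at h ⊢ with c
  · refine ⟨fun e => ?_, rfl⟩
    rw [e] at c
    exact absurd c.2 (by norm_num)
  · exact (h rfl).elim

theorem pt (h1 : PolStmt) (h2 : MobStmt) {l k : ℕ} (z : ℕ) (T : ℝ) (hT : 0 < T) (hl : 24 ≤ l)
    (hk : k < 10 ^ l) : WW l k * bad l z k ≤
      (l : ℝ) ^ 8 * ((tau k ^ 16 + tau (rv l k) ^ 16) / (4 * T) + T / 2 * bd l z k) := by
  have t1 := tau_nonneg k
  have t2 := tau_nonneg (rv l k)
  have t3 := bd_nonneg l z k
  by_cases hw : w0 l k = 0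
  · rw [WW, hw, zero_mul, zero_mul, zero_mul]
    positivity
  unfold bad
  split_ifs with hb
  swap
  · rw [mul_zero]
    positivity
  obtain ⟨k0, k1⟩ := ne_zero hw
  obtain ⟨r0, -⟩ := ne_zero (l := l) (k := rv l k) (by rwa [h2.2.2 l k (by omega) hk])
  obtain ⟨-, -, b0, b1, -, -, b2, -⟩ := h1 l hl
  have c : ∀ n : ℕ, n ≠ 0 → Pw l n ^ 2 ≤ tau n ^ 4 * (l : ℝ) ^ 4 := fun n hn => by
    have d := (b2 n hn).trans (mul_le_mul_of_nonneg_left b1 (sq_nonneg _))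
    rw [← sq_abs]
    exact (pow_le_pow_left₀ (abs_nonneg _) d 2).trans (le_of_eq (by ring))
  have c1 := mul_le_mul (c k k0) (c _ r0) (sq_nonneg _) (by positivity)
  have c2 := amgm (tau k ^ 4) (tau (rv l k) ^ 4) T hT
  have c3 := mul_le_mul_of_nonneg_left (one_le_bd k0 hk hb) (show 0 ≤ T / 2 by positivity)
  rw [← pow_mul, ← pow_mul] at c2
  rw [WW, k1, one_mul, mul_one]
  refine c1.trans (le_trans (le_of_eq (by ring))
    (mul_le_mul_of_nonneg_left (c2.trans (by linarith)) (by positivity)))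

theorem pal (l : ℕ) :
    (((range (10 ^ l)).filter (fun k => rv l k = k)).card : ℝ) * 2 ^ l ≤ 10 * 10 ^ l := by
  have b1 : ((range (10 ^ l)).filter (fun k => rv l k = k)).card * 2 ^ l ≤ 10 * 10 ^ l := by
    refine (Nat.mul_le_mul_right _ (MAIN.card_pal l)).trans ?_
    have b2 : 2 ^ l ≤ 10 ^ ((l + 1) / 2) :=
      calc 2 ^ l ≤ 2 ^ (2 * ((l + 1) / 2)) := Nat.pow_le_pow_right (by norm_num) (by omega)
        _ = 4 ^ ((l + 1) / 2) := by rw [pow_mul]; norm_num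
        _ ≤ _ := Nat.pow_le_pow_left (by norm_num) _
    refine (Nat.mul_le_mul_left _ b2).trans ?_
    rw [← pow_add, ← pow_succ']
    exact Nat.pow_le_pow_right (by norm_num) (by omega)
  exact_mod_cast b1

end Exc

open Exc in
theorem exc (h1 : PolStmt) (h2 : MobStmt) : ExcStmt := by
  obtain ⟨E, hE⟩ := tsum
  refine ⟨E + 17, ?_⟩
  have h0 : ∀ᶠ l : ℕ in atTop, ((l : ℝ) ^ (E + 17) / 2 ^ l) ≤ 1 / 20 :=
    (tendsto_pow_const_div_const_pow_of_one_lt (E + 17)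
      (by norm_num : (1 : ℝ) < 2)).eventually_le_const (by norm_num)
  filter_upwards [h0, eventually_ge_atTop 24] with l h0 hl
  have hl' : (24 : ℝ) ≤ l := by exact_mod_cast hl
  have hl0 : (0 : ℝ) < l := by linarith
  rw [div_le_iff₀ (by positivity)] at h0
  have hz : l ^ (E + 17) ≤ 10 ^ l := by
    have a1 : (2 : ℝ) ^ l ≤ 10 ^ l := pow_le_pow_left₀ (by norm_num) (by norm_num) l
    have a2 : (0 : ℝ) < 2 ^ l := by positivity
    exact_mod_cast (show (l : ℝ) ^ (E + 17) ≤ 10 ^ l by linarith)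
  have s1 := hE l (by omega)
  have s2 := (sum_rv l fun k => tau k ^ 16).trans_le s1
  have s3 := MAIN.sum_nsf (X := 10 ^ l) (z := l ^ (E + 17)) (by positivity) hz
  have s4 := pal l
  push_cast at s3
  rw [pow_add (l : ℝ)] at h0 s3
  obtain ⟨W, hW⟩ : ∃ W : ℝ, W = (l : ℝ) ^ E := ⟨_, rfl⟩
  have hW0 : 0 < W := by rw [hW]; positivity
  rw [← hW] at h0 s1 s2 s3
  refine (sum_le_sum fun k hk => pt h1 h2 (l ^ (E + 17)) ((l : ℝ) ^ 8 * W) (by positivity) hl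
    (mem_range.1 hk)).trans ?_
  rw [← mul_sum, sum_add_distrib, ← sum_div, ← mul_sum, sum_add_distrib]
  unfold bd
  rw [sum_add_distrib, sum_boole]
  generalize (((range (10 ^ l)).filter (fun k => rv l k = k)).card : ℝ) = p at s4 ⊢
  generalize (10 : ℝ) ^ l = X at s1 s2 s3 s4 ⊢
  have hX : 0 ≤ X := by
    by_contra h
    have := mul_neg_of_neg_of_pos (not_le.1 h) hW0
    linarith [sum_nonneg fun k (_ : k ∈ range (10 ^ l)) => pow_nonneg (tau_nonneg k) 16]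
  have e1 : (l : ℝ) ^ 8 * ((X * W + X * W) / (4 * (l ^ 8 * W))) = X / 2 := by
    field_simp
    ring
  have e2 : (l : ℝ) ^ 8 * (l ^ 8 * W / 2 * (X / (W * l ^ 17))) = X / (2 * l) := by field_simp
  have e3 : X / (2 * l) ≤ X / 4 := div_le_div_of_nonneg_left hX (by norm_num) (by linarith)
  have e4 : (l : ℝ) ^ 8 * (l ^ 8 * W / 2 * p) ≤ X / 4 := by
    rcases le_total p 0 with hp | hp
    · have := mul_nonneg (show (0 : ℝ) ≤ l ^ 8 * (l ^ 8 * W / 2) by positivity) (neg_nonneg.2 hp)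
      linarith
    · have a1 := mul_le_mul_of_nonneg_left h0 hp
      have a2 : (l : ℝ) ^ 16 ≤ l ^ 17 := pow_le_pow_right₀ (by linarith) (by norm_num)
      have a3 := mul_le_mul_of_nonneg_left a2 (mul_nonneg hp hW0.le)
      linarith
  have e5 := mul_le_mul_of_nonneg_left (add_le_add
    (div_le_div_of_nonneg_right (add_le_add s1 s2) (show (0 : ℝ) ≤ 4 * (l ^ 8 * W) by positivity))
    (mul_le_mul_of_nonneg_left (add_le_add s3 (le_refl p))
      (show (0 : ℝ) ≤ l ^ 8 * W / 2 by positivity))) (show (0 : ℝ) ≤ l ^ 8 by positivity)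
  refine e5.trans ?_
  rw [mul_add, mul_add, mul_add, e1, e2]
  linarith

end Pool.Agent.Emirp.T8
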