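import Pool.Agent.MP_e620c0_nt.t8.Spec

/-! The moduli far beyond the square root. -/

set_option autoImplicit false

namespace Pool.Agent.Emirp.T8

open Finset Filter Real LP

namespace Far

theorem g3_nonneg (l D : ℕ) (u : ℝ) : 0 ≤ Tone.g3 l D u :=
  sum_nonneg fun q _ => mul_nonneg (Level.tq_nonneg 5 q) (sum_nonneg fun _ _ => F_nonneg ..)

theorem cover (f : ℕ → ℝ) (a b : ℕ) (h : a ≤ b) :
    ∑ m ∈ Ioc (10 ^ a) (10 ^ b), f m = ∑ j ∈ Ico a b, ∑ m ∈ Ioc (10 ^ j) (10 ^ (j + 1)), f m := by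
  induction b, h using Nat.le_induction with
  | base => simp
  | succ b h ih =>
    rw [sum_Ico_succ_top h, ← ih, sum_Ioc_consecutive _ (Nat.pow_le_pow_right (by norm_num) h)
      (Nat.pow_le_pow_right (by norm_num) b.le_succ)]

theorem all (h1 : L1Stmt) (l D y g Q : ℕ) (hy : y ≤ l - 1) (hQ : Q ^ 2 ≤ 10 ^ (y + g)) :
    ∑ m ∈ Icc 1 Q, ∑ a ∈ red m, Tone.g3 l D (a / m) ≤
      D * (1 + log D) ^ 32 * (10 ^ 7 * (5 / 2) ^ y * 10 ^ g) := by
  have e : ∑ m ∈ Icc 1 Q, ∑ a ∈ red m, Tone.g3 l D (a / m) =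
      ∑ q ∈ (Level.QQ D).filter (fun q => 1 < q), tau q ^ 5 / q * ∑ b ∈ red q,
        ∑ m ∈ Icc 1 Q, ∑ a ∈ red m, F (l - 1) (ph l (b / q)) (a / m) := by
    unfold Tone.g3
    simp only [mul_sum]
    rw [sum_congr rfl fun m _ => sum_comm, sum_comm]
    refine sum_congr rfl fun q _ => ?_
    rw [sum_congr rfl fun m _ => sum_comm, sum_comm]
  rw [e]
  refine le_trans ?_ (mul_le_mul_of_nonneg_right ((sum_le_sum_of_subset_of_nonneg
    (filter_subset (fun q => 1 < q) _) fun q _ _ => pow_nonneg (tau_nonneg q) 5).trans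
      (Level.QQ_sum 5 D)) (by positivity))
  rw [sum_mul]
  refine sum_le_sum fun q hq => ?_
  have q0 : (0 : ℝ) < q := by exact_mod_cast zero_lt_one.trans (mem_filter.1 hq).2
  have c : ((red q).card : ℝ) ≤ q := by
    exact_mod_cast (card_filter_le _ _).trans (card_range q).le
  have b := sum_le_card_nsmul (red q) (fun b : ℕ => ∑ m ∈ Icc 1 Q, ∑ a ∈ red m,
    F (l - 1) (ph l (b / q)) (a / m)) (10 ^ 7 * (5 / 2) ^ y * 10 ^ g) fun b _ =>
      (sum_le_sum fun m _ => sum_le_sum fun a _ => F_mono hy _ _).trans (h1 y g Q _ hQ)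
  rw [nsmul_eq_mul] at b
  refine (mul_le_mul_of_nonneg_left (b.trans (mul_le_mul_of_nonneg_right c (by positivity)))
    (Level.tq_nonneg 5 q)).trans (le_of_eq ?_)
  field_simp

theorem p52 (y : ℕ) : (5 / 2 : ℝ) ^ y ≤ 10 ^ (199 * y / 500 + 1) := by
  refine le_of_pow_le_pow_left₀ (n := 500) (by norm_num) (by positivity) ?_
  have h : (5 / 2 : ℝ) ^ 500 ≤ 10 ^ 199 := by
    rw [div_pow, div_le_iff₀ (by positivity)]
    exact_mod_cast (by decide +kernel : 5 ^ 500 ≤ 10 ^ 199 * 2 ^ 500)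
  calc ((5 / 2 : ℝ) ^ y) ^ 500 = ((5 / 2) ^ 500) ^ y := by rw [← pow_mul, mul_comm, pow_mul]
    _ ≤ (10 ^ 199) ^ y := pow_le_pow_left₀ (by positivity) h y
    _ ≤ _ := by
      rw [← pow_mul, ← pow_mul]
      exact pow_le_pow_right₀ (by norm_num) (by omega)

theorem ev (c : ℝ) (hc : 0 < c) (k : ℕ) :
    ∀ᶠ l : ℕ in atTop, c * (l : ℝ) ^ k ≤ 10 ^ (l / 4000) := by
  have h := (tendsto_pow_const_div_const_pow_of_one_lt k (show (1 : ℝ) < 10 by norm_num)).comp
    (Nat.tendsto_div_const_atTop (show 4000 ≠ 0 by norm_num))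
  filter_upwards [h.eventually (gt_mem_nhds (show (0 : ℝ) < 1 / (c * 8000 ^ k) by positivity)),
    eventually_ge_atTop 4000] with l h1 h2
  rw [Function.comp, div_lt_div_iff₀ (by positivity) (by positivity), one_mul] at h1
  have h3 : (l : ℝ) ≤ 8000 * ((l / 4000 : ℕ) : ℝ) := by
    exact_mod_cast (by omega : l ≤ 8000 * (l / 4000))
  calc c * (l : ℝ) ^ k ≤ c * (8000 * ((l / 4000 : ℕ) : ℝ)) ^ k := by gcongr
    _ = ((l / 4000 : ℕ) : ℝ) ^ k * (c * 8000 ^ k) := by rw [mul_pow]; ring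
    _ ≤ _ := h1.le

end Far

open Far

theorem far (h1 : L1Stmt) (h2 : DivStmt) : FarStmt := by
  intro A
  filter_upwards [h2, ev (10 ^ 13 * 2 ^ 32) (by positivity) (A + 33), eventually_ge_atTop 10]
    with l hd he hl M D hM hD
  have l0 : (0 : ℝ) < l := by exact_mod_cast (by omega : 0 < l)
  have n0 : ∀ m : ℕ, 0 ≤ ∑ a ∈ red m, Tone.g3 l D (a / m) := fun m =>
    sum_nonneg fun _ _ => g3_nonneg ..
  have lD : 1 + log D ≤ 2 * (l : ℝ) := Tone.log_le D (842 * l / 10000 * 2) l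
    (by rw [pow_mul]; exact Nat.pow_le_pow_left hD 2) (by omega) (by omega)
  have l1 : 0 ≤ 1 + log D := by have := Real.log_natCast_nonneg D; linarith
  have hD' : (D : ℝ) ≤ 10 ^ (842 * l / 10000) := by exact_mod_cast hD
  have blk : ∀ j ∈ Ico (4154 * l / 10000) (5168 * l / 10000),
      ∑ m ∈ Ioc (10 ^ j) (10 ^ (j + 1)), tau m ^ 5 / m * ∑ a ∈ red m, Tone.g3 l D (a / m) ≤
        10 ^ 13 * (2 * l) ^ 32 / 10 ^ (l / 4000) := by
    intro j hj
    obtain ⟨j0, j1⟩ := mem_Ico.1 hj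
    obtain ⟨y, hy⟩ : ∃ y, y = min (2 * j + 2) (l - 1) := ⟨_, rfl⟩
    obtain ⟨g, hg⟩ : ∃ g, g = 2 * j + 2 - y := ⟨_, rfl⟩
    have a := all h1 l D y g (10 ^ (j + 1)) (by omega)
      (by rw [← pow_mul]; exact Nat.pow_le_pow_right (by norm_num) (by omega))
    have x : 199 * y / 500 + 1 + g + l / 5000 + 842 * l / 10000 + l / 4000 ≤ 6 + j := by omega
    calc _ ≤ ∑ m ∈ Ioc (10 ^ j) (10 ^ (j + 1)),
          10 ^ (l / 5000) / 10 ^ j * ∑ a ∈ red m, Tone.g3 l D (a / m) := by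
          refine sum_le_sum fun m hm => mul_le_mul_of_nonneg_right ?_ (n0 m)
          obtain ⟨m0, m1⟩ := mem_Ioc.1 hm
          exact div_le_div₀ (by positivity)
            (hd m (m1.trans (Nat.pow_le_pow_right (by norm_num) (by omega)))) (by positivity)
            (by exact_mod_cast m0.le)
      _ ≤ 10 ^ (l / 5000) / 10 ^ j *
          (D * (1 + log D) ^ 32 * (10 ^ 7 * (5 / 2) ^ y * 10 ^ g)) := by
          rw [← mul_sum]
          refine mul_le_mul_of_nonneg_left (le_trans (sum_le_sum_of_subset_of_nonneg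
            (fun m hm => ?_) fun m _ _ => n0 m) a) (by positivity)
          exact mem_Icc.2 ⟨(Nat.zero_le _).trans_lt (mem_Ioc.1 hm).1, (mem_Ioc.1 hm).2⟩
      _ ≤ 10 ^ (l / 5000) / 10 ^ j * (10 ^ (842 * l / 10000) * (2 * l) ^ 32 *
          (10 ^ 7 * 10 ^ (199 * y / 500 + 1) * 10 ^ g)) := by
          have := p52 y
          gcongr
      _ = 10 ^ 7 * (2 * l) ^ 32 / 10 ^ (l / 4000) *
          (10 ^ (199 * y / 500 + 1 + g + l / 5000 + 842 * l / 10000 + l / 4000) / 10 ^ j) := by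
          simp only [pow_add]; field_simp
      _ ≤ 10 ^ 7 * (2 * l) ^ 32 / 10 ^ (l / 4000) * (10 ^ (6 + j) / 10 ^ j) := by
          gcongr; norm_num
      _ = _ := by rw [pow_add]; field_simp
  refine (sum_le_sum_of_subset_of_nonneg (Ioc_subset_Ioc_right hM) fun m _ _ =>
    mul_nonneg (Level.tq_nonneg 5 m) (n0 m)).trans ?_
  rw [cover _ _ _ (by omega)]
  refine (sum_le_card_nsmul _ _ _ blk).trans ?_
  have c : ((Ico (4154 * l / 10000) (5168 * l / 10000)).card : ℝ) ≤ l := by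
    rw [Nat.card_Ico]; exact_mod_cast (by omega)
  rw [nsmul_eq_mul]
  refine (mul_le_mul_of_nonneg_right c (by positivity)).trans ?_
  rw [← mul_div_assoc, div_le_div_iff₀ (by positivity) (by positivity), one_mul]
  refine le_trans (le_of_eq ?_) he
  ring

end Pool.Agent.Emirp.T8
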