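import Pool.Agent.MP_e620c0_nt.t8.Spec

/-! A large sieve inequality for the first power of the digit transform. -/

set_option autoImplicit false

namespace Pool.Agent.Emirp.T8

open Finset Filter Real LP

namespace L1

/-- the enlarged transform -/
noncomputable def G (y : ℕ) (x : ℕ → ℝ) (s : ℝ) : ℝ :=
  ∏ i ∈ range y, (Ph (x i - 10 ^ i * s) + 29 * 10 ^ i / 10 ^ y)

lemma G_nonneg (y : ℕ) (x : ℕ → ℝ) (s : ℝ) : 0 ≤ G y x s :=
  prod_nonneg fun _ _ => add_nonneg (Ph_nonneg _) (by positivity)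

lemma G_succ (y : ℕ) (x : ℕ → ℝ) (d k : ℕ) :
    G (y + 1) x (((10 ^ y * d + k : ℕ) : ℝ) / 10 ^ (y + 1)) = G y (sh 1 x) (k / 10 ^ y) *
      (Ph (x 0 - k / 10 ^ (y + 1) - d / 10) + 29 / 10 ^ (y + 1)) := by
  unfold G sh
  rw [prod_range_succ']
  congr 1
  · refine prod_congr rfl fun i _ => ?_
    rw [← Ph_int (x (1 + i) - 10 ^ i * (k / 10 ^ y)) (-(10 ^ i * d)), add_comm 1 i]
    congr 1
    · congr 1
      push_cast
      field_simp
      ring
    · field_simp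
      ring
  · rw [pow_zero, mul_one, one_mul]
    congr 2
    push_cast
    field_simp
    ring

lemma G_sum (h : K1Stmt) (y : ℕ) : ∀ x : ℕ → ℝ,
    ∑ k ∈ range (10 ^ y), G y x (k / 10 ^ y) ≤ (5 / 2) ^ y * exp (13 * (1 - 1 / 10 ^ y)) := by
  induction y with
  | zero => intro x; simp [G]
  | succ y ih =>
    intro x
    have e : (10 : ℕ) ^ (y + 1) = 10 ^ y * 10 := pow_succ _ _
    rw [e, sum_range_mul, sum_comm]
    simp only [G_succ, ← mul_sum]
    have a : ∀ k : ℕ, ∑ d ∈ range 10, (Ph (x 0 - k / 10 ^ (y + 1) - d / 10) + 29 / 10 ^ (y + 1)) ≤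
        5 / 2 * exp (117 / 10 ^ (y + 1)) := by
      intro k
      rw [sum_add_distrib, sum_const, card_range, nsmul_eq_mul]
      have b := add_one_le_exp (117 / 10 ^ (y + 1) : ℝ)
      have c := h (x 0 - k / 10 ^ (y + 1))
      have p : (0 : ℝ) < 1 / 10 ^ (y + 1) := by positivity
      rw [div_eq_mul_one_div (117 : ℝ)] at b ⊢
      rw [div_eq_mul_one_div (29 : ℝ)]
      push_cast
      linarith
    refine (sum_le_sum fun k _ => mul_le_mul_of_nonneg_left (a k) (G_nonneg _ _ _)).trans ?_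
    rw [← sum_mul]
    refine (mul_le_mul_of_nonneg_right (ih _) (by positivity)).trans (le_of_eq ?_)
    rw [mul_mul_mul_comm, ← exp_add, ← pow_succ]
    congr 2
    field_simp
    ring

lemma G_sum' (h : K1Stmt) (y : ℕ) (x : ℕ → ℝ) :
    ∑ k ∈ range (10 ^ y), G y x (k / 10 ^ y) ≤ 10 ^ 7 * (5 / 2) ^ y := by
  refine (G_sum h y x).trans ?_
  rw [mul_comm]
  refine mul_le_mul_of_nonneg_right ?_ (by positivity)
  have p : (0 : ℝ) < 1 / 10 ^ y := by positivity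
  calc _ ≤ exp ((13 : ℕ) * 1) := exp_le_exp.2 (by push_cast; linarith)
    _ = exp 1 ^ 13 := exp_nat_mul _ _
    _ ≤ 3 ^ 13 := pow_le_pow_left₀ (exp_pos _).le (by linarith [exp_one_lt_d9]) _
    _ ≤ _ := by norm_num

lemma F_le_G (y : ℕ) (x : ℕ → ℝ) {m : ℕ} (a : ℕ) (hm : 0 < m) :
    F y x (a / m) ≤ G y x ((10 ^ y * a / m : ℕ) / 10 ^ y) := by
  have hm' : (0 : ℝ) < m := by exact_mod_cast hm
  have hN0 : (0 : ℝ) < 10 ^ y := by positivity
  set c := 10 ^ y * a / m with hc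
  have p1 : (m : ℝ) * c ≤ 10 ^ y * a := by exact_mod_cast Nat.mul_div_le (10 ^ y * a) m
  have p2 : (10 : ℝ) ^ y * a < m * (c + 1) := by
    exact_mod_cast Nat.lt_mul_div_succ (10 ^ y * a) hm
  have s0 : (0 : ℝ) ≤ a / m - c / 10 ^ y := by
    rw [sub_nonneg, div_le_div_iff₀ hN0 hm']
    linarith
  have s1 : (a : ℝ) / m - c / 10 ^ y ≤ 1 / 10 ^ y := by
    rw [sub_le_iff_le_add, ← add_div, div_le_div_iff₀ hm' hN0]
    linarith
  refine prod_le_prod (fun _ _ => Ph_nonneg _) fun i _ => ?_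
  have l := (abs_le.1 (Ph_lip (x i - 10 ^ i * (a / m)) (x i - 10 ^ i * (c / 10 ^ y)))).2
  rw [show x i - 10 ^ i * ((a : ℝ) / m) - (x i - 10 ^ i * (c / 10 ^ y)) =
    -(10 ^ i * (a / m - c / 10 ^ y)) by ring, abs_neg, abs_of_nonneg (by positivity)] at l
  have l2 := mul_le_mul_of_nonneg_left s1 (by positivity : (0 : ℝ) ≤ 29 * 10 ^ i)
  rw [mul_one_div] at l2
  linarith

end L1

theorem l1 (h : K1Stmt) : L1Stmt := by
  intro y g Q x hQ
  set N : ℕ := 10 ^ (y + g) with hNd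
  have hN0 : 0 < N := by positivity
  have hg : 0 < 10 ^ g := by positivity
  let B : ℕ → ℝ := fun i => L1.G y x ((i / 10 ^ g : ℕ) / 10 ^ y)
  have key : ∀ m a : ℕ, 0 < m → F y x (a / m) ≤ B (N * a / m) := by
    intro m a hm
    have e : N * a / m / 10 ^ g = 10 ^ y * a / m := by
      rw [Nat.div_div_eq_div_mul, hNd, pow_add, mul_right_comm, Nat.mul_div_mul_right _ _ hg]
    simp only [B, e]
    exact L1.F_le_G y x a hm
  have hB : ∑ i ∈ range N, B i ≤ 10 ^ 7 * (5 / 2) ^ y * 10 ^ g := by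
    rw [hNd, pow_add, mul_comm (10 ^ y), sum_range_mul]
    have e : ∀ j ∈ range (10 ^ y), ∑ k ∈ range (10 ^ g), B (10 ^ g * j + k) =
        L1.G y x (j / 10 ^ y) * 10 ^ g := by
      intro j _
      rw [sum_congr rfl (g := fun _ => L1.G y x (j / 10 ^ y)) fun k hk => by
        simp only [B, Nat.mul_add_div hg, Nat.div_eq_of_lt (mem_range.1 hk), add_zero],
        sum_const, card_range, nsmul_eq_mul, mul_comm]
      push_cast
      rfl
    rw [sum_congr rfl e, ← sum_mul]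
    exact mul_le_mul_of_nonneg_right (L1.G_sum' h y x) (by positivity)
  have inj : Set.InjOn (fun p : (Σ _ : ℕ, ℕ) => N * p.2 / p.1) ((Icc 1 Q).sigma red : Finset _) := by
    rintro ⟨m, a⟩ hp ⟨m', a'⟩ hq he
    obtain ⟨p1, p2⟩ := mem_sigma.1 (mem_coe.1 hp)
    obtain ⟨q1, q2⟩ := mem_sigma.1 (mem_coe.1 hq)
    have c1 : Nat.Coprime a m := (mem_filter.1 p2).2
    have c2 : Nat.Coprime a' m' := (mem_filter.1 q2).2
    obtain ⟨m1, m2⟩ : 1 ≤ m ∧ m ≤ Q := mem_Icc.1 p1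
    obtain ⟨n1, n2⟩ : 1 ≤ m' ∧ m' ≤ Q := mem_Icc.1 q1
    have hN : m * m' ≤ N := by
      calc m * m' ≤ Q * Q := Nat.mul_le_mul m2 n2
        _ = Q ^ 2 := (sq Q).symm
        _ ≤ N := hQ
    have he' : N * a / m = N * a' / m' := he
    have e1 : a' * m = a * m' := le_antisymm (Ls.half m1 n1 hN he' rfl)
      (Ls.half n1 m1 (mul_comm m m' ▸ hN) rfl he')
    have d1 : m ∣ m' := c1.symm.dvd_of_dvd_mul_left ⟨a', by rw [← e1, mul_comm]⟩
    have d2 : m' ∣ m := c2.symm.dvd_of_dvd_mul_left ⟨a, by rw [e1, mul_comm]⟩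
    obtain rfl : m = m' := Nat.dvd_antisymm d1 d2
    obtain rfl : a' = a := Nat.eq_of_mul_eq_mul_right m1 e1
    rfl
  rw [sum_sigma']
  calc _ ≤ ∑ p ∈ (Icc 1 Q).sigma red, B (N * p.2 / p.1) :=
        sum_le_sum fun p hp => key p.1 p.2 (mem_Icc.1 (mem_sigma.1 hp).1).1
    _ = ∑ i ∈ ((Icc 1 Q).sigma red).image (fun p : (Σ _ : ℕ, ℕ) => N * p.2 / p.1), B i :=
        (sum_image inj).symm
    _ ≤ ∑ i ∈ range N, B i := by
        refine sum_le_sum_of_subset_of_nonneg (fun i hi => ?_) (fun i _ _ => L1.G_nonneg _ _ _)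
        obtain ⟨p, hp, rfl⟩ := mem_image.1 hi
        have a1 : p.2 < p.1 := mem_range.1 (mem_filter.1 (mem_sigma.1 hp).2).1
        refine mem_range.2 (Nat.div_lt_of_lt_mul ?_)
        rw [mul_comm p.1]
        exact Nat.mul_lt_mul_of_pos_left a1 hN0
    _ ≤ _ := hB

end Pool.Agent.Emirp.T8
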