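import Pool.Agent.MP_e620c0_nt.t8.Spec

/-! The final count. -/

set_option autoImplicit false

namespace Pool.Agent.Emirp.T8

open Finset Filter Real LP

namespace Mn

theorem WW_rv (h : MobStmt) {l k : ℕ} (hl : 1 ≤ l) (hk : k < 10 ^ l) : WW l (rv l k) = WW l k := by
  unfold WW
  rw [h.2.2 l k hl hk, rv_rv hk]
  ring

theorem sum_sym (h : MobStmt) {l : ℕ} (hl : 1 ≤ l) (f : ℕ → ℝ) :
    ∑ k ∈ range (10 ^ l), WW l k * f (rv l k) = ∑ k ∈ range (10 ^ l), WW l k * f k := by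
  rw [← sum_rv l fun k => WW l k * f k]
  exact sum_congr rfl fun k hk => by rw [WW_rv h hl (mem_range.1 hk)]

theorem sum_FF (l z : ℕ) :
    ∑ k ∈ range (10 ^ l), WW l k * FF l z k = ∑ q ∈ QP l, gw l z q * TT l q := by
  simp only [FF, TT, mul_sum]
  rw [sum_comm]
  exact sum_congr rfl fun q _ => sum_congr rfl fun k _ => by ring

theorem alg {X A u T S G E e R P : ℝ} (h3 : e + R ≤ X) (h5 : E ≤ X)
    (s1 : 4374 / 1000 * T - 2 * S - 18 * E ≤ P) (s4 : S ≤ 16 / 165 * X * A * G + 10 * R)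
    (s5 : 16 / 165 * X * A * G ≤ 16 / 165 * X * A * (215 / 100 * A))
    (s6 : -e ≤ T - 16 / 165 * X * A * A) (s7 : 0 ≤ e) (r0 : 0 ≤ R) (t3 : X * u ≤ X * A ^ 2)
    (t4 : X * 200 ^ 2 ≤ X * u) : X * u / 200 ≤ P := by
  have e1 : 16 / 165 * X * A * (215 / 100 * A) = 16 / 165 * (215 / 100) * (X * A ^ 2) := by ring
  have e2 : 16 / 165 * X * A * A = 16 / 165 * (X * A ^ 2) := by ring
  rw [e1] at s5
  rw [e2] at s6
  linarith

end Mn

open Mn in
theorem mn (h1 : PolStmt) (h2 : MobStmt) (h3 : TqStmt) (h4 : NumStmt) (h5 : ExcStmt)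
    (h6 : PtStmt) : MnStmt := by
  obtain ⟨κ, κ', hκ, h4⟩ := h4
  obtain ⟨K, h5⟩ := h5
  have hY : ∀ᶠ l : ℕ in atTop, l ^ K ≤ YY l := by
    have h0 : ∀ᶠ l : ℕ in atTop, ((l : ℝ) ^ K / 2 ^ l) ≤ 1 :=
      (tendsto_pow_const_div_const_pow_of_one_lt K (by norm_num : (1 : ℝ) < 2)).eventually_le_const
        (by norm_num)
    filter_upwards [h0, eventually_ge_atTop 100] with l h0 hl
    rw [div_le_one (by positivity)] at h0
    have a1 : l ^ K ≤ 2 ^ l := by exact_mod_cast h0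
    refine a1.trans ?_
    calc 2 ^ l ≤ 2 ^ (3 * be l) := Nat.pow_le_pow_right (by norm_num) (by unfold be; omega)
      _ = 8 ^ be l := by rw [pow_mul]; norm_num
      _ ≤ _ := Nat.pow_le_pow_left (by norm_num) _
  have hT : Tendsto (fun l : ℕ => κ * l) atTop atTop :=
    (tendsto_natCast_atTop_atTop (R := ℝ)).const_mul_atTop hκ
  refine ⟨κ ^ 2 / (200 * (9 * 2 ^ 32 * (2 * (|κ'| + 1)) ^ 4)), by positivity, ?_⟩
  filter_upwards [h3, h4 K, h5, h6, hY, eventually_ge_atTop 24, hT.eventually_ge_atTop 200]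
    with l h3 h4 h5 h6 hY hl hκl
  obtain ⟨-, -, b0, -, a0, -, -, hg⟩ := h1 l hl
  obtain ⟨c1, c2, c3, c4, c5⟩ := h4
  have hl' : (24 : ℝ) ≤ l := by exact_mod_cast hl
  set z := l ^ K
  set X : ℝ := 10 ^ l with hX
  have hX0 : 0 < X := by positivity
  have e0 : X0 l = 16 / 165 * X := rfl
  have s1 := sum_le_sum fun k (hk : k ∈ range (10 ^ l)) => h6 z k hY (mem_range.1 hk)
  have s2 : ∑ k ∈ range (10 ^ l), (if k ∈ Gd l then 9 * 2 ^ 32 * BB l ^ 4 else 0 : ℝ) ≤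
      (Gd l).card * (9 * 2 ^ 32 * BB l ^ 4) := by
    rw [← sum_filter, sum_const, nsmul_eq_mul]
    refine mul_le_mul_of_nonneg_right ?_ (by positivity)
    exact_mod_cast card_le_card fun k hk => (mem_filter.1 hk).2
  have s3 : ∑ k ∈ range (10 ^ l), WW l k * (4374 / 1000 - FF l z k - FF l z (rv l k) -
      9 * bad l z k - 9 * bad l z (rv l k)) = 4374 / 1000 * TT l 1 -
      2 * ∑ q ∈ QP l, gw l z q * TT l q - 18 * ∑ k ∈ range (10 ^ l), WW l k * bad l z k := by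
    have e1 := sum_sym h2 (l := l) (by omega) (FF l z)
    have e2 := sum_sym h2 (l := l) (by omega) (bad l z)
    have e3 : ∀ k, WW l k * (4374 / 1000 - FF l z k - FF l z (rv l k) -
        9 * bad l z k - 9 * bad l z (rv l k)) = 4374 / 1000 * (WW l k * (if 1 ∣ k then 1 else 0)) -
        WW l k * FF l z k - WW l k * FF l z (rv l k) - 9 * (WW l k * bad l z k) -
        9 * (WW l k * bad l z (rv l k)) := fun k => by rw [if_pos (one_dvd k)]; ring
    simp only [e3, sum_sub_distrib, ← mul_sum]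
    rw [e1, e2, sum_FF, TT]
    ring
  have n1 : 1 ∉ QP l := fun h => Nat.not_prime_one (mem_filter.1 h).2
  rw [sum_insert n1, c4] at h3
  have r0 : 0 ≤ ∑ q ∈ QP l, |TT l q - X0 l * MM l q * AA l| := sum_nonneg fun _ _ => abs_nonneg _
  have s4 : ∑ q ∈ QP l, gw l z q * TT l q ≤ X0 l * AA l * ∑ q ∈ QP l, gw l z q * MM l q +
      10 * ∑ q ∈ QP l, |TT l q - X0 l * MM l q * AA l| := by
    rw [mul_sum, mul_sum, ← sum_add_distrib]
    refine sum_le_sum fun q hq => ?_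
    obtain ⟨g0, g1⟩ := hg z q hq
    have d1 := mul_le_mul_of_nonneg_left (le_abs_self (TT l q - X0 l * MM l q * AA l)) g0
    have d2 := mul_le_mul_of_nonneg_right g1 (abs_nonneg (TT l q - X0 l * MM l q * AA l))
    linarith
  have s5 := mul_le_mul_of_nonneg_left c5 (show 0 ≤ X0 l * AA l by rw [e0]; positivity)
  have s6 := neg_abs_le (TT l 1 - X0 l * AA l * AA l)
  have s7 := abs_nonneg (TT l 1 - X0 l * AA l * AA l)
  have t1 : (κ * l) ^ 2 ≤ AA l ^ 2 := pow_le_pow_left₀ (by positivity) c1 2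
  have t2 : (200 : ℝ) ^ 2 ≤ (κ * l) ^ 2 := pow_le_pow_left₀ (by norm_num) hκl 2
  have t3 := mul_le_mul_of_nonneg_left t1 hX0.le
  have t4 := mul_le_mul_of_nonneg_left t2 hX0.le
  have u1 : X * (κ * l) ^ 2 / 200 ≤ (Gd l).card * (9 * 2 ^ 32 * BB l ^ 4) := by
    rw [s3] at s1
    rw [e0] at s4 s5 s6 s7 h3 r0
    exact alg h3 h5 (s1.trans s2) s4 s5 s6 s7 r0 t3 t4
  have u2 : BB l ^ 4 ≤ (2 * (|κ'| + 1) * l) ^ 4 := by
    refine pow_le_pow_left₀ b0 ?_ 4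
    have := mul_le_mul_of_nonneg_right (le_abs_self κ') (show (0 : ℝ) ≤ l by positivity)
    linarith
  have u3 : X * (κ * l) ^ 2 / 200 ≤ (Gd l).card * (9 * 2 ^ 32 * (2 * (|κ'| + 1) * l) ^ 4) :=
    u1.trans (by gcongr)
  have hC : (0 : ℝ) < 9 * 2 ^ 32 * (2 * (|κ'| + 1)) ^ 4 := by positivity
  rw [mul_pow (2 * (|κ'| + 1)), ← mul_assoc (9 * 2 ^ 32 : ℝ)] at u3
  generalize (9 * 2 ^ 32 * (2 * (|κ'| + 1)) ^ 4 : ℝ) = C at hC u3 ⊢
  rw [div_le_iff₀ (by positivity), div_mul_eq_mul_div, div_le_iff₀ (by positivity)]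
  refine le_of_mul_le_mul_right ?_ (show (0 : ℝ) < (l : ℝ) ^ 2 by positivity)
  nlinarith

end Pool.Agent.Emirp.T8
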