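import Pool.Agent.MP_e620c0_nt.t8.Spec

/-! The main terms for the primes up to the sieve level. -/

set_option autoImplicit false

namespace Pool.Agent.Emirp.T8

open Finset Filter Real LP

namespace Na

open SieveAux

theorem logsm (a b : ℝ) {ε : ℝ} (hε : 0 < ε) : ∀ᶠ l : ℕ in atTop, a * log l + b ≤ ε * l := by
  have h1 := tendsto_natCast_atTop_atTop.eventually
    ((isLittleO_log_id_atTop.const_mul_left a).bound (half_pos hε))
  have h2 := (tendsto_natCast_atTop_atTop.const_mul_atTop (half_pos hε)).eventually_ge_atTop b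
  filter_upwards [h1, h2] with l h1 h2
  rw [id, Real.norm_natCast, Real.norm_eq_abs] at h1
  linarith [le_abs_self (a * log l)]

theorem big {c C C' : ℝ} (hc : 0 < c) (hG : ∀ y : ℝ, 1 ≤ y → |GG ⌊y⌋₊ - c * log y| ≤ C)
    (hM : ∀ y : ℝ, 1 ≤ y → |∑ p ∈ (Icc 1 ⌊y⌋₊).filter Nat.Prime, log p / p - log y| ≤ C') :
    ∀ᶠ z : ℕ in atTop, 2 ≤ z ∧
      6916 / 10000 * (c * log z) ≤ ∑ r ∈ DD z, yy z r ^ 2 / r.totient ∧
      ∑ r ∈ DD z, yy z r ^ 2 / r.totient ≤ 7 / 10 * (c * log z) ∧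
      GG z ≤ 10001 / 10000 * (c * log z) ∧
      ∑ q ∈ (DD z).filter Nat.Prime, (1 / q : ℝ) *
        ∑ r ∈ (DD z).filter (fun r => ¬ q ∣ r), (yy z r - yy z (r * q)) ^ 2 / r.totient ≤
        4965 / 10000 * (c * log z) := by
  have hC : 0 ≤ C := (abs_nonneg _).trans (hG 1 le_rfl)
  obtain ⟨K, hK⟩ := inv_sum hM (ε := c / (360000 * (C + 1))) (by positivity)
  have hT : Tendsto (fun z : ℕ => c * log z) atTop atTop :=
    (tendsto_log_atTop.comp tendsto_natCast_atTop_atTop).const_mul_atTop hc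
  filter_upwards [eventually_ge_atTop 2, hT.eventually_ge_atTop (180000 * C),
    hT.eventually_ge_atTop (10000 * (36 * c * C' + 36 * C * K))] with z hz hE1 hE2
  have hz' : (1 : ℝ) < z := by exact_mod_cast hz
  have hL : 0 < log (z : ℝ) := log_pos hz'
  have hκ : 0 < c * log z := by positivity
  have hGz := hG z hz'.le
  rw [Nat.floor_natCast, abs_le] at hGz
  have g2 := gq abel hG hz (b := 1) zero_le_one le_rfl (α := 1024 / 625) (β := -(64 / 25))
    (γ := 1) (by rw [abs_le]; constructor <;> norm_num)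
    (by rw [abs_le]; constructor <;> norm_num) (by norm_num)
  rw [full hz, abs_le] at g2
  have e2 : ∑ r ∈ DD z, yy z r ^ 2 / r.totient = ∑ r ∈ DD z,
      (1024 / 625 + -(64 / 25) * (log r / log z) + 1 * (log r / log z) ^ 2) / (r.totient : ℝ) :=
    sum_congr rfl fun r hr => by rw [yy, if_pos hr]; ring
  rw [← e2] at g2
  have q1 := qsum abel hc hC hG hM hz
  have q2 := mul_le_mul_of_nonneg_left (hK z (by omega)) (show 0 ≤ 36 * C by positivity)
  have q3 : 36 * C * (c / (360000 * (C + 1)) * log z) ≤ c * log z / 10000 := by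
    have : 36 * C * (c / (360000 * (C + 1)) * log z) = c * log z / 10000 * (C / (C + 1)) := by
      field_simp
      ring
    rw [this]
    exact mul_le_of_le_one_right (by positivity) ((div_le_one (by positivity)).2 (by linarith))
  exact ⟨hz, by linarith [g2.1], by linarith [g2.2], by linarith [hGz.2], by linarith⟩

theorem few {c C C' K : ℝ} (hc : 0 < c) (hG : ∀ y : ℝ, 1 ≤ y → |GG ⌊y⌋₊ - c * log y| ≤ C)
    (hM : ∀ y : ℝ, 1 ≤ y → |∑ p ∈ (Icc 1 ⌊y⌋₊).filter Nat.Prime, log p / p - log y| ≤ C')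
    (hK : ∀ z : ℕ, 1 ≤ z → ∑ q ∈ (Icc 1 z).filter Nat.Prime, (1 / q : ℝ) ≤ 1 * log z + K)
    {y z : ℕ} (hz : 2 ≤ z) (hy : 1 ≤ y) (hyz : y ≤ z) :
    ∑ q ∈ (DD y).filter Nat.Prime, (1 / q : ℝ) *
        ∑ r ∈ (DD z).filter (fun r => ¬ q ∣ r), (yy z r - yy z (r * q)) ^ 2 / r.totient ≤
      (2 * c + 36 * C) * log y + (2 * c * C' + 36 * C * K) := by
  have hC : 0 ≤ C := (abs_nonneg _).trans (hG 1 le_rfl)
  have h1 : ∀ q ∈ (DD y).filter Nat.Prime, (1 / q : ℝ) *
      ∑ r ∈ (DD z).filter (fun r => ¬ q ∣ r), (yy z r - yy z (r * q)) ^ 2 / r.totient ≤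
      2 * c * (log q / q) + 36 * C * (1 / q) := by
    intro q hq
    obtain ⟨hq, hp⟩ := mem_filter.1 hq
    simp only [DD, mem_filter, mem_Icc] at hq
    have hq' : q ∈ DD z := by
      simp only [DD, mem_filter, mem_Icc]
      exact ⟨⟨hq.1.1, hq.1.2.trans hyz⟩, hq.2⟩
    obtain ⟨t0, t1⟩ := t_mem hz hq.1.1 (hq.1.2.trans hyz)
    have hl : 0 ≤ c * log (q : ℝ) := mul_nonneg hc.le (log_nonneg (by exact_mod_cast hq.1.1))
    have h2 : 49 / 625 + 32 / 25 * (log (q : ℝ) / log z) + -(2 / 3) * (log q / log z) ^ 2 ≤ 2 := by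
      linarith [sq_nonneg (log (q : ℝ) / log z)]
    have h3 := (inner abel hG hz hq' hp).trans
      (add_le_add (mul_le_mul_of_nonneg_left h2 hl) le_rfl)
    refine (mul_le_mul_of_nonneg_left h3 (by positivity)).trans_eq ?_
    ring
  refine (sum_le_sum h1).trans ?_
  have hsub : (DD y).filter Nat.Prime ⊆ (Icc 1 y).filter Nat.Prime :=
    filter_subset_filter _ (filter_subset _ _)
  refine (sum_le_sum_of_subset_of_nonneg hsub fun q hq _ => ?_).trans ?_
  · simp only [mem_filter, mem_Icc] at hq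
    have hl : 0 ≤ log (q : ℝ) := log_nonneg (by exact_mod_cast hq.1.1)
    positivity
  · rw [sum_add_distrib, ← mul_sum, ← mul_sum]
    have m := hM y (by exact_mod_cast hy)
    rw [Nat.floor_natCast] at m
    have a1 := mul_le_mul_of_nonneg_left (abs_le.1 m).2 (show 0 ≤ 2 * c by positivity)
    have a2 := mul_le_mul_of_nonneg_left (hK y hy) (show 0 ≤ 36 * C by positivity)
    linarith

theorem mm (l y : ℕ) : ∑ q ∈ (DD y).filter Nat.Prime, MM l q =
    ∑ q ∈ (DD y).filter Nat.Prime, (1 / q : ℝ) * ∑ r ∈ (DD (xi l)).filter (fun r => ¬ q ∣ r),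
      (yy (xi l) r - yy (xi l) (r * q)) ^ 2 / r.totient :=
  sum_congr rfl fun _ hq =>
    Sel.main_prime (xi l) (yy (xi l)) (fun _ hr => if_neg hr) (mem_filter.1 hq).2

theorem xi_top : Tendsto xi atTop atTop :=
  (tendsto_pow_atTop_atTop_of_one_lt (by norm_num : 1 < 10)).comp
    (tendsto_atTop.2 fun b => eventually_atTop.2 ⟨24 * b, fun l hl => by unfold al; omega⟩)

theorem xi_log {l : ℕ} (hl : 500 ≤ l) : (l : ℝ) / 25 ≤ log (xi l) ∧ log (xi l) ≤ 9 * l := by
  have e : log (xi l : ℝ) = al l * log 10 := by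
    unfold xi
    rw [Nat.cast_pow, log_pow, Nat.cast_ofNat]
  have a1 : (l : ℝ) ≤ 25 * al l := by exact_mod_cast (by unfold al; omega : l ≤ 25 * al l)
  have a2 : (al l : ℝ) ≤ l := by exact_mod_cast (by unfold al; omega : al l ≤ l)
  have a0 : (0 : ℝ) ≤ al l := Nat.cast_nonneg _
  have b1 : 1 ≤ log (10 : ℝ) := by
    rw [le_log_iff_exp_le (by norm_num)]
    linarith [exp_one_lt_d9]
  have b2 : log (10 : ℝ) ≤ 9 := by linarith [log_le_sub_one_of_pos (by norm_num : (0 : ℝ) < 10)]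
  rw [e]
  constructor <;> nlinarith

end Na

open Na in
theorem na : NaStmt := by
  obtain ⟨c, C, hc, hG⟩ := gasy
  obtain ⟨C', hM⟩ := mert
  obtain ⟨K1, hK⟩ := SieveAux.inv_sum hM one_pos
  refine ⟨c / 100, 7 * c, by positivity, fun K => ?_⟩
  filter_upwards [xi_top.eventually (big hc hG hM), eventually_ge_atTop 500,
    logsm K 0 (ε := 1 / 25) (by norm_num),
    logsm ((2 * c + 36 * C) * K) (2 * c * C' + 36 * C * K1) (ε := c / 10 ^ 6) (by positivity)]
    with l h hl s1 s2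
  obtain ⟨hz, h1, h2, h3, h4⟩ := h
  obtain ⟨x1, x2⟩ := xi_log hl
  have y1 := mul_le_mul_of_nonneg_left x1 hc.le
  have y2 := mul_le_mul_of_nonneg_left x2 hc.le
  have l0 : (0 : ℝ) < l := by exact_mod_cast (by omega : 0 < l)
  have cl : 0 < c * l := by positivity
  have e : log ((l ^ K : ℕ) : ℝ) = K * log l := by rw [Nat.cast_pow, log_pow]
  have hy : 1 ≤ l ^ K := Nat.one_le_pow _ _ (by omega)
  have hyz : l ^ K ≤ xi l := by
    have h5 : log ((l ^ K : ℕ) : ℝ) ≤ log (xi l) := by rw [e]; linarith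
    exact_mod_cast (log_le_log_iff (by exact_mod_cast hy)
      (by exact_mod_cast (by omega : 0 < xi l))).1 h5
  have h6 := few hc hG hM hK hz hy hyz
  rw [e] at h6
  rw [mm, mm]
  unfold AA BB
  refine ⟨by linarith, by linarith, by linarith, by linarith, by linarith⟩

end Pool.Agent.Emirp.T8
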