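import Pool.Agent.MP_e620c0_nt.t8.Spec

/-! The weighted sum for one modulus, and the expansion of the square. -/

set_option autoImplicit false

namespace Pool.Agent.Emirp.T8

open Finset Filter Real LP

namespace One

theorem piece {l n : ℕ} (hl : 1 ≤ l) (hn : 0 < n) (hx : 2 ≤ xi l) (hA : 0 ≤ AA l) :
    |∑ k ∈ range (10 ^ l), wm l n k * Pw l (rv l k) ^ 2 - 4 * 10 ^ (l - 1) / n * AA l| ≤
      4 * AA l + BB l ^ 2 * rem (10 ^ l) (wm l n) (rv l) (xi l ^ 2) := by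
  have e1 := Sel.expand (10 ^ l) (xi l) (wm l n) (rv l) (SieveAux.yy (xi l)) 1
  rw [Sel.main_one (xi l) (SieveAux.yy (xi l)) fun r hr => if_neg hr] at e1
  simp only [one_dvd, if_true, one_mul] at e1
  have h1 := Sel.err_le (10 ^ l) (xi l) (wm l n) (rv l) (SieveAux.yy (xi l)) (32 / 25)
    (SieveAux.yy_le hx) {1} 1 (by
      intro q hq
      rw [mem_singleton.1 hq]
      exact ⟨Sel.one_mem (by omega), le_rfl⟩)
  rw [sum_singleton, one_mul] at h1
  have h2 := mul_le_mul_of_nonneg_right (Bt.mass hl hn) hA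
  rw [← abs_of_nonneg hA, ← abs_mul, abs_of_nonneg hA] at h2
  unfold Pw
  rw [e1]
  refine le_trans (le_of_eq ?_) ((abs_add_le _ _).trans (add_le_add h2 h1))
  congr 1
  unfold AA
  ring

theorem split (l q k : ℕ) : WW l k * (if q ∣ k then 1 else 0) =
    ∑ d₁ ∈ DD (xi l), ∑ d₂ ∈ DD (xi l), lam l d₁ * lam l d₂ *
      (w0 l k * (if Sel.LL q d₁ d₂ ∣ k then 1 else 0) * Pw l (rv l k) ^ 2) := by
  have e : WW l k * (if q ∣ k then 1 else 0) =
      w0 l k * Pw l (rv l k) ^ 2 * (if q ∣ k then 1 else 0) * (Pw l k * Pw l k) := by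
    unfold WW
    ring
  rw [e]
  generalize Pw l (rv l k) ^ 2 = P
  rw [Pw, Sel.PP, sum_mul_sum, mul_sum]
  refine sum_congr rfl fun d₁ _ => ?_
  rw [mul_sum]
  refine sum_congr rfl fun d₂ _ => ?_
  simp only [Sel.LL, Nat.lcm_dvd_iff, lam]
  by_cases h0 : q ∣ k <;> by_cases h1 : d₁ ∣ k <;> by_cases h2 : d₂ ∣ k <;>
    simp only [h0, h1, h2, if_true, if_false, and_true, and_false, and_self] <;> ring

end One

theorem one (h : MobStmt) (h2 : PolStmt) : OneStmt := by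
  intro l m hl hm hc
  obtain ⟨hx, -, -, -, hA, -⟩ := h2 l hl
  have hm' : (0 : ℝ) < m := by exact_mod_cast hm
  have e1 : ∑ k ∈ range (10 ^ l), w0 l k * (if m ∣ k then 1 else 0) * Pw l (rv l k) ^ 2 =
      ∑ e ∈ Nat.divisors 330, Sel.mo e *
        ∑ k ∈ range (10 ^ l), wm l (e * m) k * Pw l (rv l k) ^ 2 := by
    simp only [h.1 l m _ hc, sum_mul, mul_sum, mul_assoc]
    exact sum_comm
  have e2 : X0 l * AA l / m =
      ∑ e ∈ Nat.divisors 330, Sel.mo e * (4 * 10 ^ (l - 1) / ((e * m : ℕ) : ℝ) * AA l) := by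
    have e3 : ∀ e ∈ Nat.divisors 330, Sel.mo e * (4 * 10 ^ (l - 1) / ((e * m : ℕ) : ℝ) * AA l) =
        4 * 10 ^ (l - 1) * AA l / m * (Sel.mo e / e) := fun e _ => by
      push_cast
      ring
    rw [sum_congr rfl e3, ← mul_sum, h.2.1, X0]
    obtain ⟨j, rfl⟩ : ∃ j, l = j + 1 := ⟨l - 1, by omega⟩
    rw [Nat.add_sub_cancel, pow_succ]
    ring
  rw [e1, e2, ← sum_sub_distrib]
  refine (abs_sum_le_sum_abs _ _).trans ?_
  have e4 : dl l m = ∑ e ∈ Nat.divisors 330,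
      (4 * AA l + BB l ^ 2 * rem (10 ^ l) (wm l (e * m)) (rv l) (xi l ^ 2)) := by
    rw [sum_add_distrib, sum_const, ← mul_sum, show (Nat.divisors 330).card = 16 by decide +kernel,
      dl]
    simp only [nsmul_eq_mul, Nat.cast_ofNat]
    ring
  rw [e4]
  refine sum_le_sum fun e he => ?_
  rw [← mul_sub, abs_mul]
  exact (mul_le_of_le_one_left (abs_nonneg _) (Sel.abs_mo e)).trans
    (One.piece (by omega) (Nat.mul_pos (Nat.pos_of_mem_divisors he) hm) hx hA)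

theorem exp1 (h : OneStmt) : ExpStmt := by
  intro l q hl hq hc
  have e1 : TT l q = ∑ d₁ ∈ DD (xi l), ∑ d₂ ∈ DD (xi l), lam l d₁ * lam l d₂ *
      ∑ k ∈ range (10 ^ l),
        w0 l k * (if Sel.LL q d₁ d₂ ∣ k then 1 else 0) * Pw l (rv l k) ^ 2 := by
    rw [TT, sum_congr rfl fun k _ => One.split l q k, sum_comm]
    refine sum_congr rfl fun d₁ _ => ?_
    rw [sum_comm]
    exact sum_congr rfl fun d₂ _ => (mul_sum _ _ _).symm
  have e2 : X0 l * MM l q * AA l = ∑ d₁ ∈ DD (xi l), ∑ d₂ ∈ DD (xi l),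
      lam l d₁ * lam l d₂ * (X0 l * AA l / Sel.LL q d₁ d₂) := by
    rw [MM, mul_sum, sum_mul]
    refine sum_congr rfl fun d₁ _ => ?_
    rw [mul_sum, sum_mul]
    exact sum_congr rfl fun d₂ _ => by ring
  rw [e1, e2, ← sum_sub_distrib]
  refine (abs_sum_le_sum_abs _ _).trans (sum_le_sum fun d₁ h₁ => ?_)
  rw [← sum_sub_distrib]
  refine (abs_sum_le_sum_abs _ _).trans (sum_le_sum fun d₂ h₂ => ?_)
  rw [← mul_sub, abs_mul]
  have hd : Sel.LL q d₁ d₂ ∣ q * (d₁ * d₂) :=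
    (Nat.lcm_dvd_mul _ _).trans (Nat.mul_dvd_mul_left _ (Nat.lcm_dvd_mul _ _))
  have hp : 0 < q * (d₁ * d₂) := Nat.mul_pos hq
    (Nat.pos_of_ne_zero (mul_ne_zero (Sel.DD_ne h₁) (Sel.DD_ne h₂)))
  exact mul_le_mul_of_nonneg_left (h l _ hl (Nat.pos_of_dvd_of_pos hd hp)
    (Nat.Coprime.coprime_dvd_left hd (Nat.Coprime.mul_left hc
      (Nat.Coprime.mul_left (Sel.mem_DD.1 h₁).2.2 (Sel.mem_DD.1 h₂).2.2)))) (abs_nonneg _)

end Pool.Agent.Emirp.T8
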