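import Pool.Agent.MP_e620c0_nt.t8.Spec

/-! The pointwise bound for the weighted sieve. -/

set_option autoImplicit false

namespace Pool.Agent.Emirp.T8

open Finset Filter Real LP

namespace Pt

theorem bad_nn (l z k : ℕ) : 0 ≤ bad l z k := by unfold bad; split_ifs <;> norm_num

theorem tau_le {n : ℕ} (h : Squarefree n) : tau n ≤ 2 ^ ArithmeticFunction.cardFactors n := by
  rw [tau, Nat.card_divisors h.ne_zero, ← Nu.card_pf h]
  exact_mod_cast prod_le_pow_card _ _ 2 fun p _ => Nat.succ_le_succ (h.natFactorization_le_one p)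

theorem one {l z n : ℕ} (hl : 7000 ≤ l) (hz : z ≤ YY l) (hg : ∀ q ∈ QP l, 0 ≤ gw l z q)
    (hn : n < 10 ^ l) (hc : Nat.Coprime n 330) : 0 ≤ FF l z n ∧
      (9 ≤ FF l z n + 9 * bad l z n ∨ (Squarefree n ∧ rv l n ≠ n ∧
        (ArithmeticFunction.cardFactors n : ℝ) - 2313 / 1000 ≤ FF l z n)) := by
  have t0 : ∀ q ∈ QP l, 0 ≤ gw l z q * (if q ∣ n then 1 else 0) := fun q hq =>
    mul_nonneg (hg q hq) (by split_ifs <;> norm_num)
  have f0 : 0 ≤ FF l z n := sum_nonneg t0
  have hb : l * 1000 ≤ 2313 * be l := by unfold be; omega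
  have hY1 : 1 < YY l := Nat.one_lt_pow (by omega) (by norm_num)
  have hY : 0 < log (YY l) := log_pos (by exact_mod_cast hY1)
  have mq : ∀ p, p.Prime → p ∣ n → p ≤ YY l → p ∈ QP l := fun p hp hd hy =>
    mem_filter.2 ⟨Sel.mem_DD.2 ⟨⟨hp.one_le, hy⟩, hp.squarefree, hc.coprime_dvd_left hd⟩, hp⟩
  refine ⟨f0, ?_⟩
  by_cases h1 : (∃ b : ℕ, z < b ∧ b ^ 2 ∣ n) ∨ rv l n = n
  · left; rw [bad, if_pos h1]; linarith
  rw [not_or] at h1
  by_cases h2 : ∃ p, p.Prime ∧ p ∣ n ∧ p ≤ z
  · obtain ⟨p, hp, hd, hpz⟩ := h2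
    have a1 := single_le_sum t0 (mq p hp hd (hpz.trans hz))
    have a2 : log p / log (YY l) ≤ 1 := (div_le_one hY).2
      (log_le_log (by exact_mod_cast hp.pos) (by exact_mod_cast hpz.trans hz))
    have a3 := bad_nn l z n
    left
    simp only [if_pos hd, mul_one, gw, if_pos hpz] at a1
    change _ ≤ FF l z n at a1
    split_ifs at a1 <;> linarith
  have sq : Squarefree n := Nat.squarefree_iff_prime_squarefree.2 fun p hp hd =>
    h1.1 ⟨p, not_le.1 fun h => h2 ⟨p, hp, (dvd_mul_right p p).trans hd, h⟩, by rwa [sq]⟩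
  refine Or.inr ⟨sq, h1.2, ?_⟩
  have b1 : ∑ p ∈ n.primeFactors, (1 - log p / log (YY l)) ≤ FF l z n := by
    refine le_trans (sum_le_sum (g := fun p => if p ≤ YY l then
      gw l z p * (if p ∣ n then 1 else 0) else 0) fun p hp => ?_) ?_
    · have hp' := Nat.prime_of_mem_primeFactors hp
      have c1 : 0 ≤ log p / log (YY l) := div_nonneg (log_natCast_nonneg p) hY.le
      rw [if_pos (Nat.dvd_of_mem_primeFactors hp), mul_one]
      split_ifs with h
      · unfold gw; split_ifs <;> linarith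
      · have : 1 ≤ log p / log (YY l) := (one_le_div hY).2
          (log_le_log (by positivity) (by exact_mod_cast (not_le.1 h).le))
        linarith
    · rw [← sum_filter]
      exact sum_le_sum_of_subset_of_nonneg (fun p hp => mq p
        (Nat.prime_of_mem_primeFactors (mem_filter.1 hp).1)
        (Nat.dvd_of_mem_primeFactors (mem_filter.1 hp).1) (mem_filter.1 hp).2) fun q hq _ => t0 q hq
  rw [sum_sub_distrib, sum_const, Nu.card_pf sq, nsmul_eq_mul, mul_one, ← sum_div,
    ← log_prod fun p hp => by exact_mod_cast (Nat.prime_of_mem_primeFactors hp).ne_zero,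
    ← Nat.cast_prod, Nat.prod_primeFactors_of_squarefree sq] at b1
  have b2 : log n ≤ l * log 10 := by
    rw [← log_pow]
    exact log_le_log (by exact_mod_cast Nat.pos_of_ne_zero sq.ne_zero) (by exact_mod_cast hn.le)
  have b3 : log (YY l) = be l * log 10 := by rw [YY, Nat.cast_pow, log_pow]; norm_num
  have b4 : (l : ℝ) * 1000 ≤ 2313 * be l := by exact_mod_cast hb
  have b5 := mul_le_mul_of_nonneg_right b4 (log_pos (by norm_num : (1 : ℝ) < 10)).le
  have b6 : log n / log (YY l) ≤ 2313 / 1000 := by rw [div_le_iff₀ hY, b3]; linarith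
  linarith

end Pt

theorem pt (h1 : PolStmt) (h2 : MobStmt) : PtStmt := by
  filter_upwards [eventually_ge_atTop 7000] with l hl z k hz hk
  obtain ⟨-, -, hB, -, -, -, hP, hg⟩ := h1 l (by omega)
  have r0 : (0 : ℝ) ≤ if k ∈ Gd l then 9 * 2 ^ 32 * BB l ^ 4 else 0 := by
    split_ifs <;> positivity
  by_cases hw : k / 10 ^ (l - 1) ∈ MAIN.DG ∧ Nat.Coprime k 330
  swap
  · rwa [WW, w0, if_neg hw, zero_mul, zero_mul, zero_mul]
  have w1 : w0 l k = 1 := if_pos hw
  have hc : Nat.Coprime (rv l k) 330 := by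
    by_contra h
    have := h2.2.2 l k (by omega) hk
    rw [w1, w0, if_neg fun h' => h h'.2] at this
    exact zero_ne_one this
  have hW : 0 ≤ WW l k := by rw [WW, w1]; positivity
  obtain ⟨a1, a2⟩ := Pt.one hl hz (fun q hq => (hg z q hq).1) hk hw.2
  obtain ⟨b1, b2⟩ := Pt.one hl hz (fun q hq => (hg z q hq).1) (rv_lt l k) hc
  have a3 := Pt.bad_nn l z k
  have b3 := Pt.bad_nn l z (rv l k)
  rcases a2 with a2 | ⟨a2, a4, a5⟩
  · exact (mul_nonpos_of_nonneg_of_nonpos hW (by linarith)).trans r0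
  rcases b2 with b2 | ⟨b2, -, b5⟩
  · exact (mul_nonpos_of_nonneg_of_nonpos hW (by linarith)).trans r0
  by_cases h8 : ArithmeticFunction.cardFactors k + ArithmeticFunction.cardFactors (rv l k) ≤ 8
  swap
  · have : (9 : ℝ) ≤
        ArithmeticFunction.cardFactors k + ArithmeticFunction.cardFactors (rv l k) := by
      exact_mod_cast not_le.1 h8
    exact (mul_nonpos_of_nonneg_of_nonpos hW (by linarith)).trans r0
  have hk1 : 10 ^ (l - 1) ≤ k := by
    by_contra h
    have := hw.1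
    rw [Nat.div_eq_of_lt (not_le.1 h)] at this
    exact absurd this (by decide)
  rw [if_pos (show k ∈ Gd l from mem_filter.2 ⟨mem_Ico.2 ⟨hk1, hk⟩, a4, h8⟩)]
  have t0 : ∀ n, 0 ≤ tau n := fun n => Nat.cast_nonneg _
  have c1 : tau k * tau (rv l k) ≤ 2 ^ 8 := by
    refine (mul_le_mul (Pt.tau_le a2) (Pt.tau_le b2) (t0 _) (by positivity)).trans ?_
    rw [← pow_add]
    exact pow_le_pow_right₀ one_le_two h8
  have c2 : WW l k ≤ 2 ^ 32 * BB l ^ 4 := by
    rw [WW, w1, one_mul, ← sq_abs (Pw l k), ← sq_abs (Pw l (rv l k))]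
    calc _ ≤ (tau k ^ 2 * BB l) ^ 2 * (tau (rv l k) ^ 2 * BB l) ^ 2 := by
          have := hP k a2.ne_zero
          have := hP _ b2.ne_zero
          gcongr
      _ = (tau k * tau (rv l k)) ^ 4 * BB l ^ 4 := by ring
      _ ≤ (2 ^ 8) ^ 4 * BB l ^ 4 := by
          have := mul_nonneg (t0 k) (t0 (rv l k))
          gcongr
      _ = _ := by norm_num
  refine (mul_le_mul_of_nonneg_left (show _ ≤ (9 : ℝ) by linarith) hW).trans ?_
  linarith

end Pool.Agent.Emirp.T8
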