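import Pool.Agent.MP_e620c0_nt.lp.Ls
import Pool.Agent.MP_e620c0_nt.lp.Four
import Pool.Agent.MP_e620c0_nt.lp.Mid
import Pool.Agent.MP_e620c0_nt.lp.Cs
import Pool.Agent.MP_e620c0_nt.lp.Tone
import Pool.Agent.MP_e620c0_nt.lp.Bt

/-! Integers `n` such that `n` and its reversal have at most eight prime factors together:
definitions and module statements. -/

set_option autoImplicit false

namespace Pool.Agent.Emirp.T8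

open Finset Filter Real LP

noncomputable section

/-- exponent of the sieve level -/
def al (l : ℕ) : ℕ := 421 * l / 10000

/-- exponent of the range of the weights -/
def be (l : ℕ) : ℕ := 4325 * l / 10000

def xi (l : ℕ) : ℕ := 10 ^ al l

def YY (l : ℕ) : ℕ := 10 ^ be l

/-- the sieve coefficients -/
def lam (l d : ℕ) : ℝ := Sel.la (xi l) (SieveAux.yy (xi l)) d

/-- the sieve polynomial -/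
def Pw (l n : ℕ) : ℝ := Sel.PP (xi l) (SieveAux.yy (xi l)) n

/-- first digit 1, 3, 7 or 9 and coprime to 330 -/
def w0 (l k : ℕ) : ℝ := if k / 10 ^ (l - 1) ∈ MAIN.DG ∧ Nat.Coprime k 330 then 1 else 0

/-- the weight -/
def WW (l k : ℕ) : ℝ := w0 l k * Pw l k ^ 2 * Pw l (rv l k) ^ 2

def AA (l : ℕ) : ℝ := ∑ r ∈ DD (xi l), SieveAux.yy (xi l) r ^ 2 / r.totient

def BB (l : ℕ) : ℝ := 32 / 25 * GG (xi l)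

def MM (l q : ℕ) : ℝ :=
  ∑ d₁ ∈ DD (xi l), ∑ d₂ ∈ DD (xi l), lam l d₁ * lam l d₂ / Sel.LL q d₁ d₂

def TT (l q : ℕ) : ℝ := ∑ k ∈ range (10 ^ l), WW l k * (if q ∣ k then 1 else 0)

def X0 (l : ℕ) : ℝ := 16 / 165 * 10 ^ l

def QP (l : ℕ) : Finset ℕ := (DD (YY l)).filter Nat.Prime

/-- the weight of the prime `q` -/
def gw (l z q : ℕ) : ℝ :=
  (if q ≤ xi l then 1 else 1 - log q / log (YY l)) + (if q ≤ z then 9 else 0)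

def FF (l z k : ℕ) : ℝ := ∑ q ∈ QP l, gw l z q * (if q ∣ k then 1 else 0)

open Classical in
/-- a large square divisor, or a palindrome -/
def bad (l z k : ℕ) : ℝ := if (∃ b : ℕ, z < b ∧ b ^ 2 ∣ k) ∨ rv l k = k then 1 else 0

/-- the error for one modulus -/
def dl (l m : ℕ) : ℝ := 64 * AA l +
  BB l ^ 2 * ∑ e ∈ Nat.divisors 330, rem (10 ^ l) (wm l (e * m)) (rv l) (xi l ^ 2)

/-- the numbers counted -/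
def Gd (l : ℕ) : Finset ℕ := (Ico (10 ^ (l - 1)) (10 ^ l)).filter fun n => rv l n ≠ n ∧
  ArithmeticFunction.cardFactors n + ArithmeticFunction.cardFactors (rv l n) ≤ 8

/-! ### The level beyond one half -/

def K1Stmt : Prop := ∀ t : ℝ, ∑ d ∈ range 10, Ph (t - d / 10) ≤ 5 / 2

def L1Stmt : Prop := ∀ (y g Q : ℕ) (x : ℕ → ℝ), Q ^ 2 ≤ 10 ^ (y + g) →
  ∑ m ∈ Icc 1 Q, ∑ a ∈ red m, F y x (a / m) ≤ 10 ^ 7 * (5 / 2) ^ y * 10 ^ g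

def DivStmt : Prop := ∀ᶠ l : ℕ in atTop, ∀ m : ℕ, m ≤ 10 ^ l → tau m ^ 5 ≤ 10 ^ (l / 5000)

def FarStmt : Prop := ∀ A : ℕ, ∀ᶠ l : ℕ in atTop, ∀ M D : ℕ, M ≤ 10 ^ (5168 * l / 10000) →
  D ≤ 10 ^ (842 * l / 10000) →
  ∑ m ∈ Ioc (10 ^ (4154 * l / 10000)) M, tau m ^ 5 / m * ∑ a ∈ red m, Tone.g3 l D (a / m)
    ≤ 1 / (l : ℝ) ^ A

def T2Stmt : Prop := ∀ A : ℕ, ∀ᶠ l : ℕ in atTop, ∀ M D : ℕ, M ≤ 10 ^ (5168 * l / 10000) →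
  D ≤ 10 ^ (842 * l / 10000) →
  ∑ m ∈ Icc 1 M, tau m ^ 5 * rem (10 ^ l) (wm l m) (rv l) D ≤ 10 ^ l / (l : ℝ) ^ A

/-! ### The weighted sums -/

def PolStmt : Prop := ∀ l : ℕ, 24 ≤ l → 2 ≤ xi l ∧ xi l ≤ YY l ∧ 0 ≤ BB l ∧ BB l ≤ (l : ℝ) ^ 2 ∧
  0 ≤ AA l ∧ AA l ≤ (l : ℝ) ^ 2 ∧ (∀ n : ℕ, n ≠ 0 → |Pw l n| ≤ tau n ^ 2 * BB l) ∧
  ∀ z : ℕ, ∀ q ∈ QP l, 0 ≤ gw l z q ∧ gw l z q ≤ 10

def ErrStmt : Prop := ∀ (ξ b : ℕ) (y : ℕ → ℝ) (Y : ℝ) (Q : Finset ℕ) (δ : ℕ → ℝ),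
  (∀ r, |y r| ≤ Y) → Q ⊆ Level.QQ b → (∀ n, 0 ≤ δ n) →
  ∑ q ∈ Q, ∑ d₁ ∈ DD ξ, ∑ d₂ ∈ DD ξ, |Sel.la ξ y d₁ * Sel.la ξ y d₂| * δ (Sel.LL q d₁ d₂) ≤
    (Y * GG ξ) ^ 2 * ∑ m ∈ Level.QQ (b * ξ ^ 2), tau m ^ 5 * δ m

def MobStmt : Prop :=
  (∀ l m k : ℕ, Nat.Coprime m 330 → w0 l k * (if m ∣ k then 1 else 0) =
    ∑ e ∈ Nat.divisors 330, Sel.mo e * wm l (e * m) k) ∧
  ∑ e ∈ Nat.divisors 330, Sel.mo e / (e : ℝ) = 8 / 33 ∧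
  ∀ l k : ℕ, 1 ≤ l → k < 10 ^ l → w0 l (rv l k) = w0 l k

def OneStmt : Prop := ∀ l m : ℕ, 24 ≤ l → 1 ≤ m → Nat.Coprime m 330 →
  |∑ k ∈ range (10 ^ l), w0 l k * (if m ∣ k then 1 else 0) * Pw l (rv l k) ^ 2 -
    X0 l * AA l / m| ≤ dl l m

def ExpStmt : Prop := ∀ l q : ℕ, 24 ≤ l → 1 ≤ q → Nat.Coprime q 330 →
  |TT l q - X0 l * MM l q * AA l| ≤
    ∑ d₁ ∈ DD (xi l), ∑ d₂ ∈ DD (xi l), |lam l d₁ * lam l d₂| * dl l (Sel.LL q d₁ d₂)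

def TqStmt : Prop := ∀ᶠ l : ℕ in atTop,
  ∑ q ∈ insert 1 (QP l), |TT l q - X0 l * MM l q * AA l| ≤ 10 ^ l

/-! ### The main terms -/

def NaStmt : Prop := ∃ κ κ' : ℝ, 0 < κ ∧ ∀ K : ℕ, ∀ᶠ l : ℕ in atTop,
  κ * l ≤ AA l ∧ AA l ≤ κ' * l ∧ BB l ≤ 2 * AA l ∧
  ∑ q ∈ (DD (xi l)).filter Nat.Prime, MM l q ≤ 718 / 1000 * AA l ∧
  ∑ q ∈ (DD (l ^ K)).filter Nat.Prime, MM l q ≤ AA l / 10000

def NbStmt : Prop := ∀ᶠ l : ℕ in atTop,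
  ∑ q ∈ (QP l).filter (fun q => xi l < q), (1 - log q / log (YY l)) / q ≤ 1429 / 1000

def NumStmt : Prop := ∃ κ κ' : ℝ, 0 < κ ∧ ∀ K : ℕ, ∀ᶠ l : ℕ in atTop,
  κ * l ≤ AA l ∧ AA l ≤ κ' * l ∧ BB l ≤ 2 * AA l ∧ MM l 1 = AA l ∧
  ∑ q ∈ QP l, gw l (l ^ K) q * MM l q ≤ 215 / 100 * AA l

/-! ### The exceptional set and the pointwise bound -/

def ExcStmt : Prop := ∃ K : ℕ, ∀ᶠ l : ℕ in atTop,
  ∑ k ∈ range (10 ^ l), WW l k * bad l (l ^ K) k ≤ 10 ^ l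

def PtStmt : Prop := ∀ᶠ l : ℕ in atTop, ∀ z k : ℕ, z ≤ YY l → k < 10 ^ l →
  WW l k * (4374 / 1000 - FF l z k - FF l z (rv l k) - 9 * bad l z k - 9 * bad l z (rv l k)) ≤
    if k ∈ Gd l then 9 * 2 ^ 32 * BB l ^ 4 else 0

/-! ### The result -/

def MnStmt : Prop := ∃ c : ℝ, 0 < c ∧ ∀ᶠ L : ℕ in atTop,
  c * 10 ^ L / (L : ℝ) ^ 2 ≤ ((Gd L).card : ℝ)

end

end Pool.Agent.Emirp.T8
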