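import Pool.Agent.MP_e620c0_nt.t8.Spec

/-! Type one estimate beyond level one half. -/

set_option autoImplicit false

namespace Pool.Agent.Emirp.T8

open Finset Filter Real LP

noncomputable section

namespace T2

theorem g3_nonneg (l D : ℕ) (u : ℝ) : 0 ≤ Tone.g3 l D u :=
  sum_nonneg fun q _ => mul_nonneg (Level.tq_nonneg 5 q) (sum_nonneg fun _ _ => F_nonneg ..)

theorem log_le (M k l : ℕ) (h : M ≤ 10 ^ k) (hk : 5 * k ≤ 3 * l) (hl : 5 ≤ l) :
    1 + log M ≤ 2 * (l : ℝ) := by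
  have hl' : (5 : ℝ) ≤ l := by exact_mod_cast hl
  have hk' : 5 * (k : ℝ) ≤ 3 * l := by exact_mod_cast hk
  rcases Nat.eq_zero_or_pos M with rfl | hM
  · simp only [Nat.cast_zero, log_zero]
    linarith
  · have hM0 : (0 : ℝ) < M := by exact_mod_cast hM
    have h1 : (M : ℝ) ≤ 10 ^ k := by exact_mod_cast h
    have h2 := log_le_log hM0 h1
    have h3 := Core2.log_ten_pow k
    linarith

theorem gen (h : FarStmt) (A a b : ℕ) (ha : a = 32) (hb : b = 512) :
    ∀ᶠ l : ℕ in atTop, ∀ M D : ℕ, M ≤ 10 ^ (5168 * l / 10000) → D ≤ 10 ^ (842 * l / 10000) →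
    ∑ m ∈ Icc 1 M, tau m ^ 5 * rem (10 ^ l) (wm l m) (rv l) D ≤ 10 ^ l / (l : ℝ) ^ A := by
  refine ((mid (A + 1 + (2 * (a + b) + 1))).and ((h (A + 1 + (2 * (a + b) + 1))).and
    ((eventually_ge_atTop 4000).and (Tone.ev (2 * (a + b)))))).mono ?_
  rintro l ⟨hG, hF, hl, hL⟩ M D hM hD
  obtain ⟨G, hG0, hG1⟩ := hG (2 * (4154 * l / 10000)) (by omega)
  have hl' : (4000 : ℝ) ≤ l := by exact_mod_cast hl
  have e2 := hF M D hM hD
  have e4 := cs ls split l (10 ^ (4154 * l / 10000)) D (2 * (4154 * l / 10000)) (l / 2000)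
    (2 * (842 * l / 10000)) G _ (by omega) (by rw [← pow_mul, mul_comm])
    (by rw [mul_comm, pow_mul]; exact Nat.pow_le_pow_left hD 2) (by positivity) hG0 hG1
  have l1 := log_le M _ l hM (by omega) (by omega)
  have l2 := log_le D _ l hD (by omega) (by omega)
  have l3 := log_le (10 ^ (4154 * l / 10000)) _ l le_rfl (by omega) (by omega)
  generalize 10 ^ (4154 * l / 10000) = M₁ at e2 e4 l3
  have hM0 := Real.log_natCast_nonneg M
  have hD0 := Real.log_natCast_nonneg D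
  have hM1 := Real.log_natCast_nonneg M₁
  have e5 := Tone.fin (A + 1) a b l (2 * l) (2 * l) (10 ^ (l - 1)) hL (by positivity) le_rfl
    (by positivity) le_rfl (by positivity)
  have p0 : (0 : ℝ) ≤ 1 / (l : ℝ) ^ (A + 1 + (2 * (a + b) + 1)) := by positivity
  generalize 1 / (l : ℝ) ^ (A + 1 + (2 * (a + b) + 1)) = η at e2 e4 e5 p0
  rw [← hb] at e4
  have p1 : (1 : ℝ) ≤ (2 * l) ^ b := one_le_pow₀ (by linarith)
  have p2 : (1 + log M₁) ^ b * (1 + log D) ^ b ≤ (2 * (l : ℝ)) ^ b * (2 * l) ^ b :=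
    mul_le_mul (pow_le_pow_left₀ (by linarith) l3 _) (pow_le_pow_left₀ (by linarith) l2 _)
      (by positivity) (by positivity)
  have p3 : η ≤ 260 * η * ((2 * (l : ℝ)) ^ b * (2 * l) ^ b) := by
    have := mul_le_mul_of_nonneg_left (one_le_mul_of_one_le_of_one_le p1 p1) p0
    linarith
  have p4 := e4.trans (mul_le_mul_of_nonneg_left p2 (by positivity))
  have p5 : 0 ≤ 260 * η * ((2 * (l : ℝ)) ^ b * (2 * l) ^ b) := p0.trans p3
  generalize 260 * η * ((2 * (l : ℝ)) ^ b * (2 * l) ^ b) = S at p3 p4 p5 e5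
  have e3 : ∑ m ∈ Icc 1 M, tau m ^ 5 / m * ∑ a ∈ red m, Tone.g3 l D (a / m) ≤ 2 * S := by
    have nn : ∀ m : ℕ, 0 ≤ tau m ^ 5 / m * ∑ a ∈ red m, Tone.g3 l D (a / m) := fun m =>
      mul_nonneg (Level.tq_nonneg 5 m) (sum_nonneg fun _ _ => g3_nonneg ..)
    refine (sum_le_sum_of_subset_of_nonneg (t := Icc 1 M₁ ∪ Ioc M₁ M) (fun m hm => ?_)
      fun m _ _ => nn m).trans ?_
    · simp only [mem_union, mem_Icc, mem_Ioc] at hm ⊢
      omega
    · rw [sum_union (disjoint_left.2 fun m h1 h2 => by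
        simp only [mem_Icc, mem_Ioc] at h1 h2
        omega), two_mul]
      exact add_le_add p4 (e2.trans p3)
  have e1 := Tone.core four redu l M D _ (by omega) e3
  rw [← ha] at e1
  have e6 : (10 : ℝ) ^ (l - 1) * 10 = 10 ^ l := by
    rw [← pow_succ, Nat.sub_add_cancel (by omega : 1 ≤ l)]
  rw [e6] at e5
  have e7 : (1 + log M) ^ a * ((1 + log D) ^ a * (2 * S)) ≤
      (2 * (l : ℝ)) ^ a * ((2 * l) ^ a * (2 * S)) :=
    mul_le_mul (pow_le_pow_left₀ (by linarith) l1 _) (mul_le_mul_of_nonneg_right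
      (pow_le_pow_left₀ (by linarith) l2 _) (by positivity)) (by positivity) (by positivity)
  refine e1.trans ((mul_le_mul_of_nonneg_left e7 (by positivity)).trans ?_)
  have e8 : 2 * ((10 : ℝ) ^ l / (l : ℝ) ^ (A + 1)) ≤ 10 ^ l / (l : ℝ) ^ A := by
    rw [pow_succ, ← div_div, ← mul_div_assoc, div_le_iff₀ (by linarith), mul_comm]
    exact mul_le_mul_of_nonneg_left (by linarith) (by positivity)
  refine le_trans (le_of_eq ?_) ((mul_le_mul_of_nonneg_left e5 zero_le_two).trans e8)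
  ring

end T2

theorem t2 (h : FarStmt) : T2Stmt := fun A => T2.gen h A 32 512 rfl rfl

end

end Pool.Agent.Emirp.T8
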