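import Pool.Agent.MP_e620c0_nt.t8.Spec

/-! The total error of the weighted sums. -/

set_option autoImplicit false

namespace Pool.Agent.Emirp.T8

open Finset Filter Real LP

namespace Tq

theorem reidx {N e : ℕ} (h1 : 1 ≤ e) (h2 : e ≤ 330) {R : ℕ → ℝ} (hR : ∀ n, 0 ≤ R n) :
    ∑ m ∈ Level.QQ N, tau m ^ 5 * R (e * m) ≤ ∑ n ∈ Icc 1 (330 * N), tau n ^ 5 * R n := by
  have a1 : ∑ m ∈ Level.QQ N, tau m ^ 5 * R (e * m) ≤
      ∑ m ∈ Level.QQ N, tau (e * m) ^ 5 * R (e * m) := by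
    refine sum_le_sum fun m hm => mul_le_mul_of_nonneg_right ?_ (hR _)
    have h0 : e * m ≠ 0 := Nat.mul_ne_zero (by omega) (Level.mem_QQ hm).1.ne'
    exact pow_le_pow_left₀ (tau_nonneg m) (tau_dvd (Dvd.intro_left e rfl) h0) 5
  refine a1.trans ?_
  rw [← sum_image (s := Level.QQ N) (g := fun m => e * m) (f := fun n => tau n ^ 5 * R n)
    fun a _ b _ h => Nat.eq_of_mul_eq_mul_left h1 h]
  refine sum_le_sum_of_subset_of_nonneg (fun n hn => ?_)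
    fun n _ _ => mul_nonneg (pow_nonneg (tau_nonneg n) 5) (hR n)
  obtain ⟨m, hm, rfl⟩ := mem_image.1 hn
  obtain ⟨b1, b2, -⟩ := Level.mem_QQ hm
  exact mem_Icc.2 ⟨Nat.mul_pos h1 b1, Nat.mul_le_mul h2 b2⟩

theorem ev : ∀ᶠ l : ℕ in atTop, 128 * 4 ^ 32 * (l : ℝ) ^ 38 ≤ 2 ^ l := by
  have h := tendsto_pow_const_div_const_pow_of_one_lt 38 (r := 2) (by norm_num)
  filter_upwards [h.eventually (ge_mem_nhds (show (0 : ℝ) < 1 / (128 * 4 ^ 32) by positivity))]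
    with l hl
  rw [div_le_div_iff₀ (by positivity) (by positivity)] at hl
  linarith

theorem size {l N : ℕ} (hl : 1 ≤ l) (h0 : 1 ≤ N) (hN : N ≤ 10 ^ (5168 * l / 10000))
    (he : 128 * 4 ^ 32 * (l : ℝ) ^ 38 ≤ 2 ^ l) :
    64 * (l : ℝ) ^ 6 * (N * (1 + log N) ^ 2 ^ 5) ≤ 10 ^ l / 2 := by
  have j1 : 5168 * l / 10000 ≤ l := by omega
  have j2 : l ≤ 3 * (l - 5168 * l / 10000) := by omega
  generalize 5168 * l / 10000 = j at hN j1 j2
  have l1 : (1 : ℝ) ≤ l := by exact_mod_cast hl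
  have N1 : (1 : ℝ) ≤ N := by exact_mod_cast h0
  have N2 : (N : ℝ) ≤ 10 ^ j := by exact_mod_cast hN
  have g0 := log_nonneg N1
  have g1 : log N ≤ 3 * l := by
    have a : (N : ℝ) ≤ exp 3 ^ l := by
      refine N2.trans ((pow_le_pow_right₀ (by norm_num) j1).trans
        (pow_le_pow_left₀ (by norm_num) ?_ l))
      have := quadratic_le_exp_of_nonneg (x := 3 / 2) (by norm_num)
      rw [show (3 : ℝ) = 3 / 2 + 3 / 2 by norm_num, exp_add]
      nlinarith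
    rw [← exp_nat_mul, mul_comm] at a
    exact (log_le_iff_le_exp (by linarith)).2 a
  have g2 : (1 + log N) ^ 2 ^ 5 ≤ (4 * (l : ℝ)) ^ 32 :=
    pow_le_pow_left₀ (by linarith) (by linarith) _
  have g3 : (2 : ℝ) ^ l ≤ 10 ^ (l - j) := by
    refine (pow_le_pow_right₀ (by norm_num) j2).trans ?_
    rw [pow_mul]
    exact pow_le_pow_left₀ (by norm_num) (by norm_num) _
  have g4 : (10 : ℝ) ^ l = 10 ^ (l - j) * 10 ^ j := by rw [← pow_add, Nat.sub_add_cancel j1]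
  calc 64 * (l : ℝ) ^ 6 * (N * (1 + log N) ^ 2 ^ 5)
      ≤ 64 * (l : ℝ) ^ 6 * (10 ^ j * (4 * (l : ℝ)) ^ 32) := by gcongr
    _ = (128 * 4 ^ 32 * (l : ℝ) ^ 38) * 10 ^ j / 2 := by ring
    _ ≤ 10 ^ (l - j) * 10 ^ j / 2 := by gcongr; exact he.trans g3
    _ = 10 ^ l / 2 := by rw [g4]

end Tq

theorem tq (h1 : T2Stmt) (h2 : ErrStmt) (h3 : ExpStmt) (h4 : PolStmt) : TqStmt := by
  filter_upwards [h1 9, Tq.ev, eventually_ge_atTop 30000] with l hT he hl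
  obtain ⟨x2, xY, B0, B1, A0, A1, -⟩ := h4 l (by omega)
  have hQ : insert 1 (QP l) ⊆ Level.QQ (YY l) := by
    intro q hq
    rcases mem_insert.1 hq with rfl | hq
    · exact mem_filter.2 ⟨mem_Icc.2 ⟨le_rfl, by omega⟩, Nat.coprime_one_left _⟩
    · have := mem_filter.1 (mem_filter.1 hq).1
      exact mem_filter.2 ⟨this.1, this.2.2⟩
  have hR : ∀ n, 0 ≤ rem (10 ^ l) (wm l n) (rv l) (xi l ^ 2) := fun n =>
    SieveAux.rem_nonneg _ _ _ _
  have hd : ∀ n, 0 ≤ dl l n := fun n =>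
    add_nonneg (by positivity) (mul_nonneg (sq_nonneg _) (sum_nonneg fun e _ => hR _))
  have a1 := h2 (xi l) (YY l) (SieveAux.yy (xi l)) (32 / 25) _ (dl l) (SieveAux.yy_le x2) hQ hd
  refine (sum_le_sum fun q hq => h3 l q (by omega) (Level.mem_QQ (hQ hq)).1
    (Level.mem_QQ (hQ hq)).2.2).trans (le_trans a1 ?_)
  have hN : 330 * (YY l * xi l ^ 2) ≤ 10 ^ (5168 * l / 10000) := by
    have : 3 + (be l + al l * 2) ≤ 5168 * l / 10000 := by unfold be al; omega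
    refine le_trans ?_ (Nat.pow_le_pow_right (by norm_num) this)
    rw [pow_add, pow_add, pow_mul]
    exact Nat.mul_le_mul (by norm_num) le_rfl
  have hD : xi l ^ 2 ≤ 10 ^ (842 * l / 10000) := by
    have : al l * 2 ≤ 842 * l / 10000 := by unfold al; omega
    rw [xi, ← pow_mul]
    exact Nat.pow_le_pow_right (by norm_num) this
  have N0 : 1 ≤ YY l * xi l ^ 2 := Nat.mul_pos (by omega) (Nat.pow_pos (by omega))
  have t2 := hT _ _ hN hD
  have t1 := Tq.size (by omega) N0 (by omega) he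
  have t0 := Level.QQ_sum 5 (YY l * xi l ^ 2)
  generalize YY l * xi l ^ 2 = N at t2 t1 t0 ⊢
  have l1 : (30000 : ℝ) ≤ l := by exact_mod_cast hl
  have s0 : 0 ≤ ∑ m ∈ Level.QQ N, tau m ^ 5 := sum_nonneg fun m _ => pow_nonneg (tau_nonneg m) 5
  have t3 : ∑ m ∈ Level.QQ N, tau m ^ 5 *
      ∑ e ∈ Nat.divisors 330, rem (10 ^ l) (wm l (e * m)) (rv l) (xi l ^ 2) ≤
      330 * (10 ^ l / (l : ℝ) ^ 9) := by
    simp only [mul_sum]
    rw [sum_comm]
    refine (sum_le_card_nsmul _ _ (10 ^ l / (l : ℝ) ^ 9) fun e h => (Tq.reidx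
      (R := fun n => rem (10 ^ l) (wm l n) (rv l) (xi l ^ 2)) (Nat.pos_of_mem_divisors h)
      (Nat.divisor_le h) hR).trans t2).trans ?_
    rw [nsmul_eq_mul]
    exact mul_le_mul_of_nonneg_right (by exact_mod_cast Nat.card_divisors_le_self 330)
      (by positivity)
  have e : (32 / 25 * GG (xi l)) ^ 2 * ∑ m ∈ Level.QQ N, tau m ^ 5 * dl l m =
      64 * (BB l ^ 2 * AA l) * ∑ m ∈ Level.QQ N, tau m ^ 5 + BB l ^ 4 * ∑ m ∈ Level.QQ N,
        tau m ^ 5 * ∑ e ∈ Nat.divisors 330, rem (10 ^ l) (wm l (e * m)) (rv l) (xi l ^ 2) := by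
    rw [← BB, mul_sum, mul_sum, mul_sum, ← sum_add_distrib]
    exact sum_congr rfl fun m _ => by rw [dl]; ring
  rw [e]
  have u1 : 64 * (BB l ^ 2 * AA l) * ∑ m ∈ Level.QQ N, tau m ^ 5 ≤ 10 ^ l / 2 := by
    refine le_trans ?_ t1
    rw [show (l : ℝ) ^ 6 = ((l : ℝ) ^ 2) ^ 2 * (l : ℝ) ^ 2 by ring]
    gcongr
  have u2 : BB l ^ 4 * (330 * (10 ^ l / (l : ℝ) ^ 9)) ≤ 10 ^ l / 2 := by
    calc BB l ^ 4 * (330 * (10 ^ l / (l : ℝ) ^ 9))
        ≤ ((l : ℝ) ^ 2) ^ 4 * (330 * (10 ^ l / (l : ℝ) ^ 9)) := by gcongr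
      _ = 330 / (l : ℝ) * 10 ^ l := by field_simp
      _ ≤ (1 : ℝ) / 2 * 10 ^ l := by
        refine mul_le_mul_of_nonneg_right ?_ (by positivity)
        rw [div_le_div_iff₀ (by linarith) (by norm_num)]
        linarith
      _ = 10 ^ l / 2 := by ring
  linarith [mul_le_mul_of_nonneg_left t3 (pow_nonneg B0 4)]

end Pool.Agent.Emirp.T8
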